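import Pool.Agent.W_7d29a1_Z10.Alg

/-!
STORM Z, the closing algebra in predicate form.

`P σ` is an arbitrary predicate of one real number (meaning: patterns of `t ^ (2 σ)` shears in a block of length `t`
have a response of at most `t ^ (σ + ε)`). (helper10)
-/

namespace Pool.Agent.W_7d29a1_Z10

open Filter Topology

noncomputable section

/-- The improvement step at the level of exponents: `ν` bounds the width exponent, the blocks have length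
`R ^ b`. All the constraints except the first two on `σ'` are free for the user. -/
def StepP (w : ℕ → ℝ) (P : ℝ → Prop) : Prop :=
  ∀ ν b σ σ' : ℝ, 0 < b → b < 1 → 0 ≤ σ → σ < σ' → 2 * σ ≤ ν → P σ → (∀ᶠ n : ℕ in atTop, w n ≤ (n : ℝ) ^ ν) →
    σ' < 1 - ν + σ - b * (1 - 2 * σ) → σ' < b * ((1 - ν) / 2) → σ' < (σ + (1 - ν) / 2) / 2 →
    σ' < b * σ + (1 - b) / 2 → σ' < 1 / 4 → P σ'

/-- The energy scale is bounded through `P σ` (`σ < 1 / 4`: the patterns are then not larger than the width). -/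
def EWP (w E : ℕ → ℝ) (P : ℝ → Prop) : Prop :=
  ∀ σ : ℝ, 0 ≤ σ → σ < 1 / 4 → P σ → ∀ ε : ℝ, 0 < ε → ∀ᶠ n : ℕ in atTop,
    E n ≤ (n : ℝ) ^ ε * (w n ^ (1 / 2 : ℝ) + w n * (n : ℝ) ^ (-σ))

/-- The exponents of one step, `ν = 1 / 2 + a ^ 2 / 16`. -/
theorem numbersP {a σ : ℝ} (ha0 : 0 < a) (ha1 : a ≤ 1) (h1 : 0 ≤ σ) (h2 : σ ≤ 1 / 4 - a / 4) :
    ∃ b : ℝ, 0 < b ∧ b < 1 ∧
      σ + a ^ 2 / 4000 < 1 - (1 / 2 + a ^ 2 / 16) + σ - b * (1 - 2 * σ) ∧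
      σ + a ^ 2 / 4000 < b * ((1 - (1 / 2 + a ^ 2 / 16)) / 2) ∧
      σ + a ^ 2 / 4000 < (σ + (1 - (1 / 2 + a ^ 2 / 16)) / 2) / 2 ∧
      σ + a ^ 2 / 4000 < b * σ + (1 - b) / 2 := by
  have haa : 0 < a ^ 2 := by positivity
  have haa1 : a ^ 2 ≤ a := by nlinarith
  obtain ⟨n1, n2, n3, n4, n5, n6, n7⟩ := numbers (c := a) (δ := a ^ 2 / 16) (κ := a ^ 2 / 1000) (σ := σ)
    (x := 1 / 4 - a ^ 2 / 16 / 2) (b := (σ + 3 * (a ^ 2 / 1000)) / (1 / 4 - a ^ 2 / 16 / 2))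
    ha0 ha1 rfl rfl (by linarith) h2 rfl rfl
  set b : ℝ := (σ + 3 * (a ^ 2 / 1000)) / (1 / 4 - a ^ 2 / 16 / 2) with hb
  rw [max_eq_left h1] at n7
  have hb0 : 0 < b := by rw [hb]; exact div_pos (by linarith) n1
  have hb1 : b < 1 := by
    by_contra hc
    have : (1 / 2 - σ) * (1 - b) ≤ 0 :=
      mul_nonpos_of_nonneg_of_nonpos (by linarith) (by linarith [not_lt.1 hc])
    linarith
  refine ⟨b, hb0, hb1, by linarith, ?_, ?_, ?_⟩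
  · have : b * ((1 - (1 / 2 + a ^ 2 / 16)) / 2) = b * (1 / 4 - a ^ 2 / 16 / 2) := by ring
    rw [this, n3]; linarith
  · linarith
  · have : b * σ + (1 - b) / 2 = σ + (1 / 2 - σ) * (1 - b) := by ring
    rw [this]; linarith

/-- The iteration: a good exponent in `[1 / 4 - a / 4, 1 / 4]`. -/
theorem iterateP {w : ℕ → ℝ} {P : ℝ → Prop} (hP0 : P 0) (hS : StepP w P) {a : ℝ} (ha0 : 0 < a) (ha1 : a ≤ 1)
    (hw : ∀ᶠ n : ℕ in atTop, w n ≤ (n : ℝ) ^ (1 / 2 + a ^ 2 / 16)) :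
    ∃ σ : ℝ, 0 ≤ σ ∧ 1 / 4 - a / 4 ≤ σ ∧ σ < 1 / 4 ∧ P σ := by
  have haa : 0 < a ^ 2 := by positivity
  have haa1 : a ^ 2 ≤ a := by nlinarith
  have ind : ∀ k : ℕ, (k : ℝ) * (a ^ 2 / 4000) ≤ 1 / 4 - a / 4 + a ^ 2 / 4000 → P (k * (a ^ 2 / 4000)) := by
    intro k
    induction k with
    | zero => intro _; simpa using hP0
    | succ k ih =>
      intro hk
      push_cast at hk ⊢
      have h0 : 0 ≤ (k : ℝ) * (a ^ 2 / 4000) := by positivity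
      have h1 : (k : ℝ) * (a ^ 2 / 4000) ≤ 1 / 4 - a / 4 := by linarith
      have h2 := ih (by linarith)
      obtain ⟨b, hb0, hb1, i1, i2, i3, i4⟩ := numbersP ha0 ha1 h0 h1
      have h3 := hS _ b _ _ hb0 hb1 h0 (by linarith) (by linarith) h2 hw i1 i2 i3 i4 (by linarith)
      have e : ((k : ℝ) + 1) * (a ^ 2 / 4000) = k * (a ^ 2 / 4000) + a ^ 2 / 4000 := by ring
      rw [e]; exact h3
  have h5 : 0 ≤ (1 / 4 - a / 4 + a ^ 2 / 4000) / (a ^ 2 / 4000) := by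
    apply div_nonneg <;> linarith
  set k : ℕ := ⌊(1 / 4 - a / 4 + a ^ 2 / 4000) / (a ^ 2 / 4000)⌋₊ with hk
  have h6 : (k : ℝ) ≤ (1 / 4 - a / 4 + a ^ 2 / 4000) / (a ^ 2 / 4000) := Nat.floor_le h5
  have h7 : (1 / 4 - a / 4 + a ^ 2 / 4000) / (a ^ 2 / 4000) < k + 1 := Nat.lt_floor_add_one _
  rw [le_div_iff₀ (by linarith)] at h6
  rw [div_lt_iff₀ (by linarith)] at h7
  exact ⟨k * (a ^ 2 / 4000), by positivity, by linarith, by linarith, ind k (by linarith)⟩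

/-- **STORM Z, the closing algebra, predicate form.** -/
theorem superP {w E : ℕ → ℝ} {P : ℝ → Prop} (hw : ∀ n, 0 ≤ w n) (hE : ∀ n, 0 ≤ E n) (hP0 : P 0)
    (hS : StepP w P) (hEW : EWP w E P) {c : ℝ} (hc : 0 < c)
    (hNP : ∀ᶠ n : ℕ in atTop, (n : ℝ) ^ (1 + c) ≤ w n * E n ^ 2) :
    ∃ c' : ℝ, 0 < c' ∧ ∃ᶠ n : ℕ in atTop, (n : ℝ) ^ (1 / 2 + c') ≤ w n := by
  set a : ℝ := min c 1 with ha
  have ha0 : 0 < a := lt_min hc one_pos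
  have ha1 : a ≤ 1 := min_le_right _ _
  have hac : a ≤ c := min_le_left _ _
  have haa : a ^ 2 ≤ a := by nlinarith
  have haa0 : 0 < a ^ 2 := by positivity
  refine ⟨a ^ 2 / 16, by positivity, fun hnot => ?_⟩
  have hwW : ∀ᶠ n : ℕ in atTop, w n ≤ (n : ℝ) ^ (1 / 2 + a ^ 2 / 16) := by
    filter_upwards [hnot] with n hn using (not_le.1 hn).le
  obtain ⟨σ, hσ0, hσ1, hσ2, hPσ⟩ := iterateP hP0 hS ha0 ha1 hwW
  have hEb := hEW σ hσ0 hσ2 hPσ (a ^ 2 / 1000) (by positivity)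
  have hθ : 0 < a / 2 - 3 * (a ^ 2 / 16) - 2 * (a ^ 2 / 1000) := by linarith
  have ht : Tendsto (fun R : ℕ => (R : ℝ) ^ (a / 2 - 3 * (a ^ 2 / 16) - 2 * (a ^ 2 / 1000))) atTop atTop :=
    (tendsto_rpow_atTop hθ).comp tendsto_natCast_atTop_atTop
  obtain ⟨R, hR⟩ := ((((hNP.and (eventually_ge_atTop 1)).and hwW).and hEb).and
    (ht.eventually_gt_atTop 4)).exists
  obtain ⟨⟨⟨⟨hRN, hRone⟩, hRw⟩, hRE⟩, hRbig⟩ := hR
  have hR1 : (1 : ℝ) ≤ R := by exact_mod_cast hRone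
  have hR0 : (0 : ℝ) < R := by linarith
  set δ : ℝ := a ^ 2 / 16 with hδ
  set κ : ℝ := a ^ 2 / 1000 with hκ
  -- E is too small
  have hE1 : E R ≤ 2 * (R : ℝ) ^ (κ + 1 / 4 + δ + a / 4) := by
    have e2 : w R ^ (1 / 2 : ℝ) ≤ (R : ℝ) ^ (1 / 4 + δ + a / 4) := by
      calc w R ^ (1 / 2 : ℝ) ≤ ((R : ℝ) ^ (1 / 2 + δ)) ^ (1 / 2 : ℝ) :=
            Real.rpow_le_rpow (hw R) hRw (by norm_num)
        _ = (R : ℝ) ^ ((1 / 2 + δ) * (1 / 2)) := by rw [← Real.rpow_mul hR0.le]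
        _ ≤ _ := Real.rpow_le_rpow_of_exponent_le hR1 (by linarith)
    have e3 : w R * (R : ℝ) ^ (-σ) ≤ (R : ℝ) ^ (1 / 4 + δ + a / 4) := by
      calc w R * (R : ℝ) ^ (-σ) ≤ (R : ℝ) ^ (1 / 2 + δ) * (R : ℝ) ^ (-σ) :=
            mul_le_mul_of_nonneg_right hRw (Real.rpow_nonneg hR0.le _)
        _ = (R : ℝ) ^ (1 / 2 + δ + -σ) := by rw [← Real.rpow_add hR0]
        _ ≤ _ := Real.rpow_le_rpow_of_exponent_le hR1 (by linarith)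
    have hRe : 0 ≤ (R : ℝ) ^ κ := Real.rpow_nonneg hR0.le _
    calc E R ≤ (R : ℝ) ^ κ * (w R ^ (1 / 2 : ℝ) + w R * (R : ℝ) ^ (-σ)) := hRE
      _ ≤ (R : ℝ) ^ κ * ((R : ℝ) ^ (1 / 4 + δ + a / 4) + (R : ℝ) ^ (1 / 4 + δ + a / 4)) :=
          mul_le_mul_of_nonneg_left (add_le_add e2 e3) hRe
      _ = 2 * ((R : ℝ) ^ κ * (R : ℝ) ^ (1 / 4 + δ + a / 4)) := by ring
      _ = _ := by rw [← Real.rpow_add hR0]; congr 2; ring
  have h1 : w R * E R ^ 2 ≤ 4 * (R : ℝ) ^ (1 + 3 * δ + 2 * κ + a / 2) := by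
    calc w R * E R ^ 2 ≤ (R : ℝ) ^ (1 / 2 + δ) * (2 * (R : ℝ) ^ (κ + 1 / 4 + δ + a / 4)) ^ 2 :=
          mul_le_mul hRw (pow_le_pow_left₀ (hE R) hE1 2) (sq_nonneg _) (by positivity)
      _ = 4 * ((R : ℝ) ^ (1 / 2 + δ) * ((R : ℝ) ^ (κ + 1 / 4 + δ + a / 4) *
            (R : ℝ) ^ (κ + 1 / 4 + δ + a / 4))) := by ring
      _ = _ := by
          rw [← Real.rpow_add hR0, ← Real.rpow_add hR0]; congr 2; ring
  have h4 : (R : ℝ) ^ (1 + a) ≤ (R : ℝ) ^ (1 + c) := Real.rpow_le_rpow_of_exponent_le hR1 (by linarith)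
  have h5 : (R : ℝ) ^ (1 + a) = (R : ℝ) ^ (a / 2 - 3 * δ - 2 * κ) * (R : ℝ) ^ (1 + 3 * δ + 2 * κ + a / 2) := by
    rw [← Real.rpow_add hR0]; congr 1; ring
  have h6 : 0 < (R : ℝ) ^ (1 + 3 * δ + 2 * κ + a / 2) := Real.rpow_pos_of_pos hR0 _
  have h7 : (R : ℝ) ^ (a / 2 - 3 * δ - 2 * κ) * (R : ℝ) ^ (1 + 3 * δ + 2 * κ + a / 2) ≤
      4 * (R : ℝ) ^ (1 + 3 * δ + 2 * κ + a / 2) := by
    rw [← h5]; linarith
  exact absurd (le_of_mul_le_mul_right h7 h6) (not_le.2 hRbig)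

end

end Pool.Agent.W_7d29a1_Z10
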