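import Pool.Agent.W_7d29a1_NP.NPMain
import Pool.Agent.W_7d29a1_Z10.AlgP

/-!
STORM Z: strict Newman - Piza in the form of the closing algebra, and the width from the predicate. (helper10)
-/

namespace Pool.Agent.W_7d29a1_Z10

open MeasureTheory ProbabilityTheory Filter Topology
open Pool.Agent.W_7d29a1_F Pool.Agent.W_7d29a1_G Pool.Agent.W_7d29a1_SR Pool.Agent.W_7d29a1_NP

variable {μ : Measure ℝ} [IsProbabilityMeasure μ] {c C : ℝ} {n₀ : ℕ}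

theorem wd_nn (h : In μ c C n₀) (n : ℕ) : 0 ≤ wd μ n :=
  mul_nonneg (vA_nonneg (μ := μ) h.em zero_le_one n) (Nat.cast_nonneg n)

theorem EE_nn (n : ℕ) : 0 ≤ EE μ n := zero_le_one.trans (one_le_EE (μ := μ) n)

/-- **Strict Newman - Piza.** -/
theorem strictNP (h : In μ c C n₀) :
    ∃ k : ℝ, 0 < k ∧ ∀ᶠ n : ℕ in atTop, (n : ℝ) ^ (1 + k) ≤ wd μ n * EE μ n ^ 2 := by
  obtain ⟨c', hc', n₁, hn₁, hg⟩ := np_main h
  have hN0 : (0 : ℝ) < n₁ := by exact_mod_cast hn₁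
  have hb : 0 < bn μ n₁ := bn_pos h hn₁
  obtain ⟨r, hr⟩ : ∃ r : ℝ, r = c' * bn μ n₁ / (n₁ : ℝ) ^ c' := ⟨_, rfl⟩
  have hr0 : 0 < r := by
    rw [hr]; exact div_pos (mul_pos hc' hb) (Real.rpow_pos_of_pos hN0 _)
  have hlim : Tendsto (fun n : ℕ => (n : ℝ) ^ (c' / 2)) atTop atTop :=
    (tendsto_rpow_atTop (by positivity)).comp tendsto_natCast_atTop_atTop
  refine ⟨c' / 2, by positivity, ?_⟩
  filter_upwards [eventually_ge_atTop n₁, hlim.eventually_ge_atTop (1 / r)] with n hn hbig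
  have hn0 : (0 : ℝ) < n := by exact_mod_cast hn₁.trans hn
  have h1 := hg n₁ n le_rfl hn
  have h2 : c' * ((n : ℝ) / n₁) ^ c' * bn μ n₁ = r * (n : ℝ) ^ c' := by
    rw [hr, Real.div_rpow hn0.le hN0.le]; ring
  rw [h2] at h1
  have h3 : wd μ n * EE μ n ^ 2 = n * bn μ n := by
    unfold bn; field_simp
  have h4 : (n : ℝ) ^ c' = (n : ℝ) ^ (c' / 2) * (n : ℝ) ^ (c' / 2) := by
    rw [← Real.rpow_add hn0]; congr 1; ring
  have h5 : 0 < (n : ℝ) ^ (c' / 2) := Real.rpow_pos_of_pos hn0 _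
  rw [div_le_iff₀ hr0] at hbig
  have h6 : (n : ℝ) ^ (c' / 2) ≤ r * (n : ℝ) ^ c' := by
    rw [h4]; nlinarith
  rw [h3, Real.rpow_add hn0, Real.rpow_one]
  exact mul_le_mul_of_nonneg_left (h6.trans h1) hn0.le

/-- **The width is superdiffusive** as soon as there is a predicate with the improvement step. -/
theorem width_of_P (h : In μ c C n₀) {Q : ℝ → Prop} (hP0 : Q 0) (hS : StepP (wd μ) Q)
    (hEW : EWP (wd μ) (EE μ) Q) :
    ∃ a : ℝ, 0 < a ∧ ∃ᶠ n : ℕ in atTop, (n : ℝ) ^ (1 / 2 + a) ≤ wd μ n := by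
  obtain ⟨k, hk, hNP⟩ := strictNP h
  exact superP (wd_nn h) (fun n => EE_nn n) hP0 hS hEW hk hNP

end Pool.Agent.W_7d29a1_Z10
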