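import Pool.Agent.W_7d29a1_Z10.EwpOf
import Pool.Agent.W_7d29a1_Z10.NPLink
import Pool.Agent.W_7d29a1_Z3.Eb3

/-!
STORM Z, lattice version: `EWP` for the property `PSg`, and the end: the width is superdiffusive from `PSg μ 0` and the step.
(helper10, from helper3's step (E))
-/

namespace Pool.Agent.W_7d29a1_Z10

open MeasureTheory ProbabilityTheory Filter Topology
open Pool.Agent.W_7d29a1_F Pool.Agent.W_7d29a1_G Pool.Agent.W_7d29a1_SR Pool.Agent.W_7d29a1_NP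
open Pool.Agent.W_7d29a1_Z (PSg Core Rsp)

variable {μ : Measure ℝ} [IsProbabilityMeasure μ] {c C : ℝ} {n₀ : ℕ}

/-- A stretched exponential beats every power. -/
theorem pow_mul_exp_le {b : ℝ} (hb : 0 < b) (k a : ℝ) :
    ∀ᶠ n : ℕ in atTop, (n : ℝ) ^ k * Real.exp (-a * (n : ℝ) ^ b) ≤ 1 ∨ a ≤ 0 := by
  rcases le_or_gt a 0 with ha | ha
  · exact Eventually.of_forall fun n => Or.inr ha
  · have h1 : Tendsto (fun x : ℝ => x ^ (k / b) * Real.exp (-a * x)) atTop (𝓝 0) :=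
      tendsto_rpow_mul_exp_neg_mul_atTop_nhds_zero (k / b) a ha
    have h2 : Tendsto (fun n : ℕ => (n : ℝ) ^ b) atTop atTop :=
      (tendsto_rpow_atTop hb).comp tendsto_natCast_atTop_atTop
    filter_upwards [(h1.comp h2).eventually_le_const one_pos, eventually_ge_atTop 1] with n hn hn1
    left
    have hn0 : (0 : ℝ) ≤ n := Nat.cast_nonneg n
    simp only [Function.comp_apply] at hn
    rw [← Real.rpow_mul hn0, mul_div_cancel₀ _ hb.ne'] at hn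
    exact hn

/-- **`EWP` for the patterns of the lattice version.** -/
theorem ewpZ (h : In μ c C n₀) : EWP (wd μ) (EE μ) (PSg μ) := by
  obtain ⟨k, hk, hNP⟩ := strictNP h
  obtain ⟨C₁, n₁, hC₁, hE⟩ := Pool.Agent.W_7d29a1_Z3.eb2 (μ := μ) h
  have hw := wd_nn (μ := μ) h
  refine ewp_core hw (fun n => EE_nn n) (K := C₁) (by linarith) ?_ hk hNP
  intro σ hσ hσ4 hP e he
  obtain ⟨δ, g, hδ, hg, t₀, hpat⟩ := hP e he
  have ht1 : ∀ {a : ℝ}, 0 < a → Tendsto (fun n : ℕ => (n : ℝ) ^ a) atTop atTop := fun ha =>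
    (tendsto_rpow_atTop ha).comp tendsto_natCast_atTop_atTop
  filter_upwards [eventually_ge_atTop t₀, eventually_ge_atTop n₁, eventually_ge_atTop 1,
    (ht1 hδ).eventually_ge_atTop C₁, (ht1 (show 0 < 1 - 2 * σ by linarith)).eventually_ge_atTop 4,
    (ht1 one_pos).eventually_ge_atTop (4 * C₁), pow_mul_exp_le hg 3 (1 / 2)] with n h1 h2 h3 h4 h5 h6 h7
  obtain ⟨I, hI, hc1, hc2, hR⟩ := hpat n h1
  have hn1 : (1 : ℝ) ≤ n := by exact_mod_cast h3
  have hn0 : (0 : ℝ) < n := lt_of_lt_of_le one_pos hn1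
  have hcard : 1 ≤ I.card := by
    have : (0 : ℝ) < I.card := lt_of_lt_of_le (Real.rpow_pos_of_pos hn0 _) hc1
    exact_mod_cast this
  have h4c : 4 * I.card ≤ n := by
    have : (4 : ℝ) * I.card ≤ n := by
      calc (4 : ℝ) * I.card ≤ (n : ℝ) ^ (1 - 2 * σ) * (n : ℝ) ^ (2 * σ) :=
            mul_le_mul h5 hc2 (Nat.cast_nonneg _) (Real.rpow_nonneg hn0.le _)
        _ = n := by rw [← Real.rpow_add hn0]; simp
    exact_mod_cast this
  have hA : (0 : ℝ) ≤ (n : ℝ) ^ (σ + e) := Real.rpow_nonneg hn0.le _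
  have hmain := hE n I ((n : ℝ) ^ δ * wd μ n) ((n : ℝ) ^ (σ + e)) (Real.exp (-(n : ℝ) ^ g)) h2 hI hcard
    (mul_le_mul_of_nonneg_right h4 (hw n)) hA (Real.exp_pos _).le hR
  refine ⟨I.card, by exact_mod_cast hcard, hc1, hmain.trans ?_⟩
  have hz0 : (0 : ℝ) ≤ wd μ n / I.card + 1 := add_nonneg (div_nonneg (hw n) (Nat.cast_nonneg _)) zero_le_one
  refine mul_le_mul_of_nonneg_left ?_ (mul_nonneg (by linarith) hz0)
  have hsq : Real.sqrt (Real.exp (-(n : ℝ) ^ g)) = Real.exp (-(1 / 2) * (n : ℝ) ^ g) := by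
    rw [← Real.exp_half]; congr 1; ring
  rw [hsq]
  have h8 : (n : ℝ) ^ (3 : ℝ) * Real.exp (-(1 / 2) * (n : ℝ) ^ g) ≤ 1 := by
    rcases h7 with h7 | h7
    · exact h7
    · norm_num at h7
  have h9 : C₁ * ((n : ℝ) + 1) ^ 2 ≤ (n : ℝ) ^ (3 : ℝ) := by
    rw [Real.rpow_one] at h6
    have h10 : ((n : ℝ) + 1) ^ 2 ≤ 4 * (n : ℝ) ^ 2 := by nlinarith
    have h11 : (n : ℝ) ^ (3 : ℝ) = n * (n : ℝ) ^ 2 := by
      rw [show (3 : ℝ) = ((3 : ℕ) : ℝ) by norm_num, Real.rpow_natCast]; ring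
    rw [h11]
    calc C₁ * ((n : ℝ) + 1) ^ 2 ≤ C₁ * (4 * (n : ℝ) ^ 2) := mul_le_mul_of_nonneg_left h10 (by linarith)
      _ = 4 * C₁ * (n : ℝ) ^ 2 := by ring
      _ ≤ _ := mul_le_mul_of_nonneg_right h6 (sq_nonneg _)
  have h12 : C₁ * ((n : ℝ) + 1) ^ 2 * Real.exp (-(1 / 2) * (n : ℝ) ^ g) ≤ 1 :=
    (mul_le_mul_of_nonneg_right h9 (Real.exp_pos _).le).trans h8
  linarith

/-- **The end of the lattice version**: the width is superdiffusive, from the base `PSg μ 0` and the step. -/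
theorem latP (h : In μ c C n₀) (hbase : PSg μ 0) (hstep : StepP (wd μ) (PSg μ)) :
    ∃ a : ℝ, 0 < a ∧ ∃ᶠ n : ℕ in atTop, (n : ℝ) ^ (1 / 2 + a) ≤ wd μ n := by
  obtain ⟨k, hk, hNP⟩ := strictNP h
  exact superP (wd_nn h) (fun n => EE_nn n) hbase hstep (ewpZ h) hk hNP

end Pool.Agent.W_7d29a1_Z10
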