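import Pool.Agent.W_7d29a1_Z10.ExcD
import Pool.Agent.W_7d29a1_Z22.OkayZ
import Pool.Agent.W_7d29a1_Z.StpK
import Pool.Agent.W_7d29a1_Z10.NPLink

/-!
STORM Z, leaf Stp: `OkayAll` from the leaves. (helper10, with helper22's `okay_of`)
-/

namespace Pool.Agent.W_7d29a1_Z10

open MeasureTheory ProbabilityTheory Filter Topology Finset
open Pool.Agent.W_7d29a1_F Pool.Agent.W_7d29a1_X Pool.Agent.W_7d29a1_G
open Pool.Agent.W_7d29a1_SR (In wd)
open Pool.Agent.W_7d29a1_Z Pool.Agent.W_7d29a1_Z22 Pool.Agent.W_7d29a1_Z.StpK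

noncomputable section

variable {μ : Measure ℝ}

theorem okay_mono {t τ B : ℕ} {I : Finset ℕ} {cw A η lam U U' : ℝ} {e : Ker} {w : Env} (h : Okay μ t τ I B cw A η lam U e w)
    (hU : U ≤ U') : Okay μ t τ I B cw A η lam U' e w :=
  ⟨h.ns, h.ra, h.inn, h.top.trans hU, h.tom.trans hU⟩

theorem ite_inst {α : Type*} (P : Prop) (i1 i2 : Decidable P) (x y : α) :
    (@ite α P i1 x y) = @ite α P i2 x y := by
  cases i1 <;> cases i2 <;> first | rfl | contradiction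

/-- One system. -/
theorem okay_of_good {R t B : ℕ} {I : Finset ℕ} {δ' δ'' ε cw A lam θ M : ℝ} {e : Ker} {w : Env} (hI : I ⊆ Core t)
    (hB : R / 4 + 2 * t * B ≤ 3 * R / 4) (hR : 3 ≤ R)
    (hcone : ∀ N : ℕ, R ≤ 2 * N + 1 → N ≤ R → (R : ℝ) ^ δ' * wd μ R ≤ (R : ℝ) ^ δ'' * wd' μ N)
    (hsz : 16 * ((R : ℝ) ^ δ' * wd μ R) ≤ R) (hIc : 16 * (I.card : ℝ) ≤ t) (hM : ∀ N : ℕ, 1 ≤ N → N ≤ R → EE' μ N ≤ M)
    (hg : GoodS μ R t (R / 4) B I (pat t (R / 4) I (full 1 B)) (pat t (R / 4) I (full (-1) B)) δ' δ'' ε cw A lam θ w)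
    (he : InK R ((R : ℝ) ^ δ' * wd μ R) e) :
    Okay μ t (R / 4) I B cw A θ lam (2 * ((R : ℝ) ^ ε * M)) e w := by
  obtain ⟨k1, k2, k3, k4, k5, k6⟩ := he
  have hN : (eN e : ℕ) = e.2.1 - e.1 := rfl
  have hle : e.1 ≤ e.2.1 := by omega
  have hNr : ((eN e : ℕ) : ℝ) = (e.2.1 : ℝ) - e.1 := by rw [hN, Nat.cast_sub hle]
  rw [← hNr] at k6
  have hS : Sys μ R δ' e.1 (eN e) e.2.2 := ⟨k1, by omega, by omega, k4, k5, k6⟩
  obtain ⟨q1, q2, q3, q4⟩ := sys_fact hS le_rfl hB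
  have hIt : I ⊆ range t := fun k hk => by
    have := mem_Ico.1 (hI hk)
    exact mem_range.2 (by omega)
  -- the total shift is small
  have hBI : 32 * (B * I.card) ≤ R := by
    have h1 : 16 * I.card ≤ t := by exact_mod_cast hIc
    have h2 : 2 * B * (16 * I.card) ≤ 2 * B * t := Nat.mul_le_mul_left _ h1
    have h3 : 2 * t * B ≤ 3 * R / 4 := by
      generalize 2 * t * B = X at *
      omega
    have h4 : 2 * B * t = 2 * t * B := by ring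
    have h5 : 2 * B * (16 * I.card) = 32 * (B * I.card) := by ring
    omega
  have hBIr : 32 * ((B : ℝ) * I.card) ≤ R := by exact_mod_cast hBI
  have hNR : (R : ℝ) ≤ 2 * (eN e : ℕ) + 1 := by exact_mod_cast q1
  have hR3 : (3 : ℝ) ≤ R := by exact_mod_cast hR
  have k7 := abs_le.1 k6
  have hlow : ((B : ℝ) * I.card) ≤ (e.2.2 : ℝ) := by linarith [k7.1]
  have hupp : (e.2.2 : ℝ) + (B : ℝ) * I.card ≤ ((eN e : ℕ) : ℝ) := by linarith [k7.2]
  refine okay_of hIt (by omega) ?_ (by omega) ?_ ?_ ?_ (hM _ (by omega) q2) ?_ hg.ra ?_ hg.pb hg.pbp hg.pbm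
  · have h1 : 3 * R / 4 ≤ e.2.1 := by omega
    exact hB.trans h1
  · exact_mod_cast hlow
  · exact_mod_cast hupp
  · exact k6.trans (mul_le_mul_of_nonneg_left (hcone _ q1 q2) zero_le_two)
  · have h1 := hg.ns e.1 (eN e) e.2.2 hS
    unfold Qg at h1
    refine le_trans (le_of_eq (sum_congr rfl fun S _ => ?_)) h1
    exact ite_inst _ _ _ _ _
  · have h1 := hg.inn e.1 (eN e) e.2.2 hS
    unfold Qg at h1
    refine le_trans (le_of_eq (sum_congr rfl fun S _ => ?_)) h1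
    exact ite_inst _ _ _ _ _

variable [IsProbabilityMeasure μ] {c C : ℝ} {n₀ : ℕ}

/-- **`OkayQ` from `ns` and `inn`.** -/
theorem okayQ_of (h : In μ c C n₀) (hF : HF2 μ) {q : ℕ → ℝ} (hq0 : ∀ n, 1 ≤ n → 0 ≤ q n) (hns : NsS μ) (hinn : InnS μ q) :
    OkayQ μ q := by
  intro b ε δ c₀ hb _ hε hδ hc₀
  obtain ⟨δ', δ'', ε', c', hδ', hδ'', hε', hc', hev⟩ := exc_prob h hF hq0 hns hinn (ε₁ := ε / 2) hb hε (by linarith) hδ hc₀
  obtain ⟨a, K, ha0, ha1, hK, hep⟩ := EE'_pow h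
  obtain ⟨N₁, hN₁⟩ := wd'_eq h
  refine ⟨δ', c', hδ', hc', ?_⟩
  filter_upwards [hev, eventually_ge_atTop N₁, eventually_ge_atTop 3,
    (tend_pow (show 0 < ε / 2 by linarith)).eventually_ge_atTop (2 * K)] with R hR hR1 hR3 hR4
  obtain ⟨hcone, hsz, hmain⟩ := hR
  intro t B A ht1 hB1 hB hA I hI hz1 hz2 hRsp
  have ht2 : t ≤ R := by
    have h1 : 2 * t * B ≤ R := by
      generalize 2 * t * B = X at *
      omega
    have h2 : t ≤ 2 * t * B := by nlinarith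
    exact h2.trans h1
  obtain ⟨s1, s2, s3⟩ := hmain t (R / 4) B I A ht1 ht2 le_rfl hB hI hA hz1 hz2 hRsp
  have hRr : (1 : ℝ) ≤ R := by exact_mod_cast (by omega : 1 ≤ R)
  have hR0 : (0 : ℝ) < R := lt_of_lt_of_le one_pos hRr
  refine ⟨(R : ℝ) ^ ε' * wd μ t, by linarith, ?_⟩
  set Bd : Set Env := {η | ¬ GoodS μ R t (R / 4) B I (pat t (R / 4) I (full 1 B)) (pat t (R / 4) I (full (-1) B)) δ' δ'' (ε / 2)
    ((R : ℝ) ^ ε' * wd μ t) A ((R : ℝ) ^ ε * (Real.sqrt B + B * (A * q t)) * A)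
    (Real.exp (-(R : ℝ) ^ c')) η} with hBd
  refine ⟨toMeasurable (law μ) Bd, measurableSet_toMeasurable _ _, ?_, ?_⟩
  · have h1 := s3 (pat t (R / 4) I (full 1 B)) (pat t (R / 4) I (full (-1) B))
    rw [Measure.real, measure_toMeasurable]
    exact ENNReal.toReal_le_of_le_ofReal (Real.exp_pos _).le h1
  · intro w hw e he
    have hg : GoodS μ R t (R / 4) B I (pat t (R / 4) I (full 1 B)) (pat t (R / 4) I (full (-1) B)) δ' δ'' (ε / 2)
        ((R : ℝ) ^ ε' * wd μ t) A ((R : ℝ) ^ ε * (Real.sqrt B + B * (A * q t)) * A)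
        (Real.exp (-(R : ℝ) ^ c')) w := by
      by_contra hcon
      exact hw (subset_toMeasurable _ _ hcon)
    have hEE := (hN₁ R hR1).2.1
    refine okay_mono (okay_of_good (M := K * EE μ R) hI hB hR3 hcone hsz s2 (fun N h1 h2 => ?_) hg he) ?_
    · rw [← hEE]
      exact (hep N R h1 h2).1
    · have h1 : (R : ℝ) ^ ε = (R : ℝ) ^ (ε / 2) * (R : ℝ) ^ (ε / 2) := by
        rw [← Real.rpow_add hR0]; congr 1; ring
      have h2 : 0 ≤ EE μ R := EE_nn R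
      have h3 : 0 ≤ (R : ℝ) ^ (ε / 2) := Real.rpow_nonneg hR0.le _
      rw [h1]
      calc 2 * ((R : ℝ) ^ (ε / 2) * (K * EE μ R)) = 2 * K * ((R : ℝ) ^ (ε / 2) * EE μ R) := by ring
        _ ≤ (R : ℝ) ^ (ε / 2) * ((R : ℝ) ^ (ε / 2) * EE μ R) := mul_le_mul_of_nonneg_right hR4 (mul_nonneg h3 h2)
        _ = _ := by ring

end

end Pool.Agent.W_7d29a1_Z10
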