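import Mathlib

/-!
STORM Z, the closing algebra (pure real sequences).

From the restriction inequality (RC), `E ≤ sqrt w + w S`, and strict Newman - Piza `n ^ (1 + c) ≤ w n * E n ^ 2`:
`w n ≥ n ^ (1 / 2 + c')` for arbitrarily large `n`. (helper10)
-/

namespace Pool.Agent.W_7d29a1_Z10

open Filter Topology

noncomputable section

/-- (RC): the momentum at the scale `R` from blocks of length `t` with `z` shears in every block. -/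
def RC (w E S : ℕ → ℝ) : Prop :=
  ∀ ε : ℝ, 0 < ε → ∃ C : ℝ, ∀ t R : ℕ, 1 ≤ t → t ≤ R → ∀ z : ℝ, 1 ≤ z → z ≤ t →
    S R ≤ C * (R : ℝ) ^ ε * (E R * (t / (R * z)) + S t * ((t : ℝ) / R) ^ (1 / 2 : ℝ) +
      (w t / t) ^ (1 / 2 : ℝ) * (1 + z * S t ^ 2))

/-- `E ≤ sqrt w + w S`. -/
def EW (w E S : ℕ → ℝ) : Prop :=
  ∀ ε : ℝ, 0 < ε → ∃ C : ℝ, ∀ R : ℕ, 1 ≤ R → E R ≤ C * (R : ℝ) ^ ε * (w R ^ (1 / 2 : ℝ) + w R * S R)

/-- The power bound with exponent `σ`. -/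
def PB (S : ℕ → ℝ) (σ : ℝ) : Prop := ∃ C : ℝ, 0 ≤ C ∧ ∀ R : ℕ, 1 ≤ R → S R ≤ C * (R : ℝ) ^ (-σ)

theorem PB.mono {S : ℕ → ℝ} {σ τ : ℝ} (h : PB S σ) (hτ : τ ≤ σ) : PB S τ := by
  obtain ⟨C, hC, h⟩ := h
  refine ⟨C, hC, fun R hR => (h R hR).trans (mul_le_mul_of_nonneg_left ?_ hC)⟩
  exact Real.rpow_le_rpow_of_exponent_le (by exact_mod_cast hR) (by linarith)

/-- Improvement from `R₁` on is enough. -/
theorem PB.of_large {S : ℕ → ℝ} {σ τ : ℝ} (h : PB S σ) (hτ : σ ≤ τ) {K : ℝ} {R₁ : ℕ}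
    (h1 : ∀ R : ℕ, 1 ≤ R → R₁ ≤ R → S R ≤ K * (R : ℝ) ^ (-τ)) : PB S τ := by
  obtain ⟨C, hC, h⟩ := h
  have hA : 0 ≤ C * ((R₁ : ℝ) + 1) ^ (τ - σ) := mul_nonneg hC (Real.rpow_nonneg (by positivity) _)
  refine ⟨|K| + C * ((R₁ : ℝ) + 1) ^ (τ - σ), by positivity, fun R hR => ?_⟩
  have hR1 : (1 : ℝ) ≤ R := by exact_mod_cast hR
  have hR0 : (0 : ℝ) < R := by linarith
  have hp : 0 < (R : ℝ) ^ (-τ) := Real.rpow_pos_of_pos hR0 _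
  rcases le_total R₁ R with hRR | hRR
  · refine (h1 R hR hRR).trans (mul_le_mul_of_nonneg_right ?_ hp.le)
    linarith [le_abs_self K]
  · refine (h R hR).trans ?_
    have h2 : (R : ℝ) ^ (-σ) ≤ ((R₁ : ℝ) + 1) ^ (τ - σ) * (R : ℝ) ^ (-τ) := by
      have h3 : (R : ℝ) ^ (-σ) = (R : ℝ) ^ (τ - σ) * (R : ℝ) ^ (-τ) := by
        rw [← Real.rpow_add hR0]; ring_nf
      rw [h3]
      refine mul_le_mul_of_nonneg_right ?_ hp.le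
      refine Real.rpow_le_rpow hR0.le ?_ (by linarith)
      have : (R : ℝ) ≤ R₁ := by exact_mod_cast hRR
      linarith
    calc C * (R : ℝ) ^ (-σ) ≤ C * (((R₁ : ℝ) + 1) ^ (τ - σ) * (R : ℝ) ^ (-τ)) :=
          mul_le_mul_of_nonneg_left h2 hC
      _ = C * ((R₁ : ℝ) + 1) ^ (τ - σ) * (R : ℝ) ^ (-τ) := by ring
      _ ≤ _ := mul_le_mul_of_nonneg_right (by linarith [abs_nonneg K]) hp.le

/-- The time scale `t` between `R ^ b` and `2 R ^ b`. -/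
theorem exists_t {b : ℝ} (hb0 : 0 ≤ b) (hb1 : b ≤ 1) {R : ℕ} (hR : 1 ≤ R) :
    ∃ t : ℕ, 1 ≤ t ∧ t ≤ R ∧ (R : ℝ) ^ b ≤ t ∧ (t : ℝ) ≤ 2 * (R : ℝ) ^ b := by
  have hR1 : (1 : ℝ) ≤ R := by exact_mod_cast hR
  have h1 : (1 : ℝ) ≤ (R : ℝ) ^ b := Real.one_le_rpow hR1 hb0
  have h2 : (R : ℝ) ^ b ≤ R := by
    calc (R : ℝ) ^ b ≤ (R : ℝ) ^ (1 : ℝ) := Real.rpow_le_rpow_of_exponent_le hR1 hb1
      _ = R := Real.rpow_one _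
  refine ⟨⌈(R : ℝ) ^ b⌉₊, ?_, ?_, Nat.le_ceil _, ?_⟩
  · exact Nat.one_le_ceil_iff.2 (by linarith)
  · exact Nat.ceil_le.2 h2
  · have := (Nat.ceil_lt_add_one (a := (R : ℝ) ^ b) (by linarith)).le
    linarith

/-- The numbers of the improvement step. -/
theorem numbers {c δ κ σ x b : ℝ} (hc0 : 0 < c) (hc1 : c ≤ 1) (hδ : δ = c ^ 2 / 16) (hκ : κ = c ^ 2 / 1000)
    (h1 : -κ ≤ σ) (h2 : σ ≤ 1 / 4 - c / 4) (hx : x = 1 / 4 - δ / 2) (hb : b = (σ + 3 * κ) / x) :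
    0 < x ∧ 2 * κ ≤ x ∧ b * x = σ + 3 * κ ∧ 0 ≤ b ∧ b ≤ 1 ∧ κ ≤ (1 / 2 - σ) * (1 - b) ∧
      b * (1 - 2 * max σ 0) ≤ 1 / 2 - δ - 3 * κ / 2 := by
  have hcc : c ^ 2 ≤ 1 := by nlinarith
  have hc2 : c ^ 2 ≤ c := by nlinarith
  have hc20 : 0 < c ^ 2 := by positivity
  have hx0 : (7 : ℝ) / 32 ≤ x := by rw [hx, hδ]; linarith
  have hx1 : x ≤ 1 / 4 := by rw [hx, hδ]; linarith
  have hxp : 0 < x := by linarith
  have hbx : b * x = σ + 3 * κ := by rw [hb]; field_simp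
  have hb0 : 0 ≤ b := by
    rw [hb]; exact div_nonneg (by rw [hκ] at h1 ⊢; linarith) hxp.le
  have hb1 : b * x ≤ x * (1 - c / 2) := by
    rw [hbx, hx, hδ, hκ]
    nlinarith
  have hb1' : b ≤ 1 - c / 2 := by
    have : b * x ≤ (1 - c / 2) * x := by linarith
    exact le_of_mul_le_mul_right this hxp
  refine ⟨hxp, ?_, hbx, hb0, by linarith, ?_, ?_⟩
  · rw [hκ]; linarith
  · have h3 : c / 2 ≤ 1 - b := by linarith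
    have h4 : (1 : ℝ) / 4 ≤ 1 / 2 - σ := by linarith
    calc κ ≤ 1 / 4 * (c / 2) := by rw [hκ]; nlinarith
      _ ≤ (1 / 2 - σ) * (1 - b) := mul_le_mul h4 h3 (by positivity) (by linarith)
  · have key : b * (1 - 2 * max σ 0) * x ≤ (1 / 2 - δ - 3 * κ / 2) * x := by
      have e : b * (1 - 2 * max σ 0) * x = (σ + 3 * κ) * (1 - 2 * max σ 0) := by rw [← hbx]; ring
      rw [e]
      have hR : 1 / 8 - c ^ 2 / 32 - c ^ 2 / 1000 ≤ (1 / 2 - δ - 3 * κ / 2) * x := by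
        rw [hx, hδ, hκ]; nlinarith [mul_nonneg hc20.le hc20.le]
      refine le_trans ?_ hR
      rcases le_total 0 σ with h | h
      · rw [max_eq_left h]
        have h5 : c ^ 2 / 16 ≤ (1 / 4 - σ) ^ 2 := by nlinarith
        have h6 : σ * (1 - 2 * σ) = 1 / 8 - 2 * (1 / 4 - σ) ^ 2 := by ring
        have h7 : 3 * κ * (1 - 2 * σ) ≤ 3 * κ := by rw [hκ]; nlinarith
        have h8 : (σ + 3 * κ) * (1 - 2 * σ) = σ * (1 - 2 * σ) + 3 * κ * (1 - 2 * σ) := by ring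
        rw [h8, h6]
        rw [hκ] at h7 ⊢
        linarith
      · rw [max_eq_right h]
        rw [hκ] at h1 ⊢
        linarith
    exact le_of_mul_le_mul_right key hxp

/-- The third term (near ties). -/
theorem term3 {w S : ℕ → ℝ} (hw : ∀ n, 0 ≤ w n) (hS : ∀ n, 0 ≤ S n) {δ κ σ x b m W C₀ r : ℝ} {t : ℕ}
    (hW : 0 ≤ W) (hwW : w t ≤ W * (t : ℝ) ^ (1 / 2 + δ)) (hx : x = 1 / 4 - δ / 2) (ht0 : (1 : ℝ) ≤ t)
    (hr : 1 ≤ r) (hSt : S t ≤ C₀ * (t : ℝ) ^ (-σ)) (hmκ : m - σ ≤ κ) (hκ0 : 0 < κ)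
    (hbx : b * x = σ + 3 * κ) (hb1 : b ≤ 1) (h2x : 2 * κ ≤ x) (hta : r ^ b ≤ t) :
    r ^ (κ / 4) * ((w t / t) ^ (1 / 2 : ℝ) * (1 + (t : ℝ) ^ (2 * m) * S t ^ 2)) ≤
      W ^ (1 / 2 : ℝ) * (1 + C₀ ^ 2) * r ^ (-(σ + κ / 2)) := by
  have hr0 : 0 < r := by linarith
  have ht00 : (0 : ℝ) < t := by linarith
  have hRe : 0 < r ^ (κ / 4) := Real.rpow_pos_of_pos hr0 _
  have hRb : 0 < r ^ b := Real.rpow_pos_of_pos hr0 _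
  have hWh : 0 ≤ W ^ (1 / 2 : ℝ) := Real.rpow_nonneg hW _
  have hz0 : 0 ≤ (t : ℝ) ^ (2 * m) := Real.rpow_nonneg ht00.le _
  have a1 : (w t / t) ^ (1 / 2 : ℝ) ≤ W ^ (1 / 2 : ℝ) * (t : ℝ) ^ (-x) := by
    have a2 : w t / t ≤ W * (t : ℝ) ^ (δ - 1 / 2) := by
      rw [div_le_iff₀ ht00]
      have e : (t : ℝ) ^ (1 / 2 + δ) = (t : ℝ) ^ (δ - 1 / 2) * (t : ℝ) ^ (1 : ℝ) := by
        rw [← Real.rpow_add ht00]; congr 1; ring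
      rw [Real.rpow_one] at e
      rw [e] at hwW
      linarith
    calc (w t / t) ^ (1 / 2 : ℝ) ≤ (W * (t : ℝ) ^ (δ - 1 / 2)) ^ (1 / 2 : ℝ) :=
          Real.rpow_le_rpow (div_nonneg (hw t) ht00.le) a2 (by norm_num)
      _ = W ^ (1 / 2 : ℝ) * (t : ℝ) ^ (-x) := by
          rw [Real.mul_rpow hW (Real.rpow_nonneg ht00.le _), ← Real.rpow_mul ht00.le]
          congr 2
          rw [hx]; ring
  have a3 : 1 + (t : ℝ) ^ (2 * m) * S t ^ 2 ≤ (1 + C₀ ^ 2) * (t : ℝ) ^ (2 * κ) := by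
    have a4 : S t ^ 2 ≤ (C₀ * (t : ℝ) ^ (-σ)) ^ 2 := pow_le_pow_left₀ (hS t) hSt 2
    have a5 : (t : ℝ) ^ (2 * m) * (C₀ * (t : ℝ) ^ (-σ)) ^ 2 = C₀ ^ 2 * (t : ℝ) ^ (2 * (m - σ)) := by
      have e : (t : ℝ) ^ (2 * (m - σ)) = (t : ℝ) ^ (2 * m) * ((t : ℝ) ^ (-σ) * (t : ℝ) ^ (-σ)) := by
        rw [← Real.rpow_add ht00, ← Real.rpow_add ht00]; congr 1; ring
      rw [e]; ring
    have a6 : (t : ℝ) ^ (2 * (m - σ)) ≤ (t : ℝ) ^ (2 * κ) :=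
      Real.rpow_le_rpow_of_exponent_le ht0 (by linarith)
    have a7 : (1 : ℝ) ≤ (t : ℝ) ^ (2 * κ) := Real.one_le_rpow ht0 (by linarith)
    calc 1 + (t : ℝ) ^ (2 * m) * S t ^ 2 ≤ (t : ℝ) ^ (2 * κ) + (t : ℝ) ^ (2 * m) * (C₀ * (t : ℝ) ^ (-σ)) ^ 2 :=
          add_le_add a7 (mul_le_mul_of_nonneg_left a4 hz0)
      _ = (t : ℝ) ^ (2 * κ) + C₀ ^ 2 * (t : ℝ) ^ (2 * (m - σ)) := by rw [a5]
      _ ≤ (t : ℝ) ^ (2 * κ) + C₀ ^ 2 * (t : ℝ) ^ (2 * κ) :=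
          add_le_add le_rfl (mul_le_mul_of_nonneg_left a6 (sq_nonneg _))
      _ = _ := by ring
  have a8 : (t : ℝ) ^ (-x) * (t : ℝ) ^ (2 * κ) ≤ r ^ (-σ - κ) := by
    rw [← Real.rpow_add ht00]
    have e1 : (t : ℝ) ^ (-x + 2 * κ) ≤ (r ^ b) ^ (-x + 2 * κ) :=
      Real.rpow_le_rpow_of_nonpos hRb hta (by linarith)
    refine e1.trans ?_
    rw [← Real.rpow_mul hr0.le]
    refine Real.rpow_le_rpow_of_exponent_le hr ?_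
    have : b * (2 * κ) ≤ 2 * κ := by nlinarith
    linarith
  have a9 : r ^ (κ / 4) * r ^ (-σ - κ) ≤ r ^ (-(σ + κ / 2)) := by
    rw [← Real.rpow_add hr0]
    exact Real.rpow_le_rpow_of_exponent_le hr (by linarith)
  have hK : 0 ≤ W ^ (1 / 2 : ℝ) * (1 + C₀ ^ 2) := by positivity
  have hS2 : 0 ≤ 1 + (t : ℝ) ^ (2 * m) * S t ^ 2 := by positivity
  have hx2 : 0 ≤ W ^ (1 / 2 : ℝ) * (t : ℝ) ^ (-x) := mul_nonneg hWh (Real.rpow_nonneg ht00.le _)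
  calc r ^ (κ / 4) * ((w t / t) ^ (1 / 2 : ℝ) * (1 + (t : ℝ) ^ (2 * m) * S t ^ 2))
      ≤ r ^ (κ / 4) * ((W ^ (1 / 2 : ℝ) * (t : ℝ) ^ (-x)) * ((1 + C₀ ^ 2) * (t : ℝ) ^ (2 * κ))) :=
        mul_le_mul_of_nonneg_left (mul_le_mul a1 a3 hS2 hx2) hRe.le
    _ = W ^ (1 / 2 : ℝ) * (1 + C₀ ^ 2) * (r ^ (κ / 4) * ((t : ℝ) ^ (-x) * (t : ℝ) ^ (2 * κ))) := by ring
    _ ≤ W ^ (1 / 2 : ℝ) * (1 + C₀ ^ 2) * (r ^ (κ / 4) * r ^ (-σ - κ)) :=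
        mul_le_mul_of_nonneg_left (mul_le_mul_of_nonneg_left a8 hRe.le) hK
    _ ≤ _ := mul_le_mul_of_nonneg_left a9 hK

/-- The second term (the slope of the blocks). -/
theorem term2 {S : ℕ → ℝ} {κ σ b C₀ r : ℝ} {t : ℕ} (hC₀ : 0 ≤ C₀) (ht0 : (1 : ℝ) ≤ t)
    (hr : 1 ≤ r) (hSt : S t ≤ C₀ * (t : ℝ) ^ (-σ)) (hσ2 : σ ≤ 1 / 4) (hσ1 : -(1 / 2) ≤ σ)
    (hκ0 : 0 < κ) (hk : κ ≤ (1 / 2 - σ) * (1 - b))
    (htb : (t : ℝ) ≤ 2 * r ^ b) :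
    r ^ (κ / 4) * (S t * ((t : ℝ) / r) ^ (1 / 2 : ℝ)) ≤ 2 * C₀ * r ^ (-(σ + κ / 4)) := by
  have hr0 : 0 < r := by linarith
  have ht00 : (0 : ℝ) < t := by linarith
  have hRe : 0 < r ^ (κ / 4) := Real.rpow_pos_of_pos hr0 _
  have hRb : 0 < r ^ b := Real.rpow_pos_of_pos hr0 _
  have b1 : S t * ((t : ℝ) / r) ^ (1 / 2 : ℝ) ≤ C₀ * ((t : ℝ) ^ (1 / 2 - σ) * r ^ (-(1 / 2 : ℝ))) := by
    have e : ((t : ℝ) / r) ^ (1 / 2 : ℝ) = (t : ℝ) ^ (1 / 2 : ℝ) * r ^ (-(1 / 2 : ℝ)) := by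
      rw [Real.div_rpow ht00.le hr0.le, Real.rpow_neg hr0.le, div_eq_mul_inv]
    have e2 : (t : ℝ) ^ (1 / 2 - σ) = (t : ℝ) ^ (-σ) * (t : ℝ) ^ (1 / 2 : ℝ) := by
      rw [← Real.rpow_add ht00]; congr 1; ring
    rw [e, e2]
    have h0 : 0 ≤ (t : ℝ) ^ (1 / 2 : ℝ) * r ^ (-(1 / 2 : ℝ)) :=
      mul_nonneg (Real.rpow_nonneg ht00.le _) (Real.rpow_nonneg hr0.le _)
    calc S t * ((t : ℝ) ^ (1 / 2 : ℝ) * r ^ (-(1 / 2 : ℝ)))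
        ≤ (C₀ * (t : ℝ) ^ (-σ)) * ((t : ℝ) ^ (1 / 2 : ℝ) * r ^ (-(1 / 2 : ℝ))) :=
          mul_le_mul_of_nonneg_right hSt h0
      _ = _ := by ring
  have b2 : (t : ℝ) ^ (1 / 2 - σ) ≤ 2 * r ^ (b * (1 / 2 - σ)) := by
    have e3 : (t : ℝ) ^ (1 / 2 - σ) ≤ (2 * r ^ b) ^ (1 / 2 - σ) :=
      Real.rpow_le_rpow ht00.le htb (by linarith)
    refine e3.trans ?_
    rw [Real.mul_rpow (by norm_num) hRb.le, ← Real.rpow_mul hr0.le]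
    refine mul_le_mul_of_nonneg_right ?_ (Real.rpow_nonneg hr0.le _)
    calc (2 : ℝ) ^ (1 / 2 - σ) ≤ (2 : ℝ) ^ (1 : ℝ) :=
          Real.rpow_le_rpow_of_exponent_le (by norm_num) (by linarith)
      _ = 2 := Real.rpow_one _
  have b3 : r ^ (κ / 4) * (r ^ (b * (1 / 2 - σ)) * r ^ (-(1 / 2 : ℝ))) ≤ r ^ (-(σ + κ / 4)) := by
    rw [← Real.rpow_add hr0, ← Real.rpow_add hr0]
    refine Real.rpow_le_rpow_of_exponent_le hr ?_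
    linarith
  calc r ^ (κ / 4) * (S t * ((t : ℝ) / r) ^ (1 / 2 : ℝ))
      ≤ r ^ (κ / 4) * (C₀ * ((2 * r ^ (b * (1 / 2 - σ))) * r ^ (-(1 / 2 : ℝ)))) := by
        refine mul_le_mul_of_nonneg_left (b1.trans ?_) hRe.le
        exact mul_le_mul_of_nonneg_left (mul_le_mul_of_nonneg_right b2 (Real.rpow_nonneg hr0.le _)) hC₀
    _ = 2 * C₀ * (r ^ (κ / 4) * (r ^ (b * (1 / 2 - σ)) * r ^ (-(1 / 2 : ℝ)))) := by ring
    _ ≤ _ := mul_le_mul_of_nonneg_left b3 (by positivity)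

/-- The first term (the budget). -/
theorem term1 {c δ κ σ b m W D e s v r : ℝ} {t : ℕ} (hW : 0 ≤ W) (hD : 0 ≤ D) (ht0 : (1 : ℝ) ≤ t) (hr : 1 ≤ r)
    (hm : 0 ≤ m) (hta : r ^ b ≤ t) (htb : (t : ℝ) ≤ 2 * r ^ b) (he : 0 ≤ e) (hs : 0 ≤ s) (hv : 0 ≤ v)
    (hvW : v ≤ W * r ^ (1 / 2 + δ)) (heD : e ≤ D * r ^ (κ / 4) * (v ^ (1 / 2 : ℝ) + v * s))
    (hbm : b * (1 - 2 * m) ≤ 1 / 2 - δ - 3 * κ / 2) (hδ : 0 < δ) (hκ : 0 < κ) (hκc : κ ≤ c / 4)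
    (hσ : σ ≤ 1 / 4 - c / 4) :
    r ^ (κ / 4) * (e * ((t : ℝ) / (r * (t : ℝ) ^ (2 * m)))) ≤
      2 * D * W ^ (1 / 2 : ℝ) * r ^ (-(σ + κ / 2)) + 2 * D * W * r ^ (-κ) * s := by
  have hr0 : 0 < r := by linarith
  have ht00 : (0 : ℝ) < t := by linarith
  have hRe : 0 < r ^ (κ / 4) := Real.rpow_pos_of_pos hr0 _
  have hRb : 0 < r ^ b := Real.rpow_pos_of_pos hr0 _
  have hWh : 0 ≤ W ^ (1 / 2 : ℝ) := Real.rpow_nonneg hW _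
  have hz0 : 0 < (t : ℝ) ^ (2 * m) := Real.rpow_pos_of_pos ht00 _
  have c1 : (t : ℝ) / (r * (t : ℝ) ^ (2 * m)) ≤ 2 * r ^ (b * (1 - 2 * m) - 1) := by
    have e1 : r ^ (2 * m * b) ≤ (t : ℝ) ^ (2 * m) := by
      calc r ^ (2 * m * b) = (r ^ b) ^ (2 * m) := by
            rw [← Real.rpow_mul hr0.le]; congr 1; ring
        _ ≤ (t : ℝ) ^ (2 * m) := Real.rpow_le_rpow hRb.le hta (by linarith)
    rw [div_le_iff₀ (by positivity)]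
    have e2 : r ^ b = r ^ (b * (1 - 2 * m) - 1) * (r ^ (1 : ℝ) * r ^ (2 * m * b)) := by
      rw [← Real.rpow_add hr0, ← Real.rpow_add hr0]; congr 1; ring
    calc (t : ℝ) ≤ 2 * r ^ b := htb
      _ = 2 * r ^ (b * (1 - 2 * m) - 1) * (r ^ (1 : ℝ) * r ^ (2 * m * b)) := by rw [mul_assoc, ← e2]
      _ ≤ 2 * r ^ (b * (1 - 2 * m) - 1) * (r * (t : ℝ) ^ (2 * m)) := by
          rw [Real.rpow_one]
          exact mul_le_mul_of_nonneg_left (mul_le_mul_of_nonneg_left e1 hr0.le) (by positivity)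
  have c2 : e ≤ D * r ^ (κ / 4) * (W ^ (1 / 2 : ℝ) * r ^ (1 / 4 + δ / 2) + W * r ^ (1 / 2 + δ) * s) := by
    have e2 : v ^ (1 / 2 : ℝ) ≤ W ^ (1 / 2 : ℝ) * r ^ (1 / 4 + δ / 2) := by
      calc v ^ (1 / 2 : ℝ) ≤ (W * r ^ (1 / 2 + δ)) ^ (1 / 2 : ℝ) :=
            Real.rpow_le_rpow hv hvW (by norm_num)
        _ = _ := by
            rw [Real.mul_rpow hW (Real.rpow_nonneg hr0.le _), ← Real.rpow_mul hr0.le]
            congr 2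
            ring
    exact heD.trans (mul_le_mul_of_nonneg_left (add_le_add e2 (mul_le_mul_of_nonneg_right hvW hs))
      (mul_nonneg hD hRe.le))
  have c3 : r ^ (κ / 4) * (r ^ (κ / 4) * (r ^ (1 / 2 + δ) * r ^ (b * (1 - 2 * m) - 1))) ≤ r ^ (-κ) := by
    rw [← Real.rpow_add hr0, ← Real.rpow_add hr0, ← Real.rpow_add hr0]
    exact Real.rpow_le_rpow_of_exponent_le hr (by linarith)
  have c4 : r ^ (κ / 4) * (r ^ (κ / 4) * (r ^ (1 / 4 + δ / 2) * r ^ (b * (1 - 2 * m) - 1))) ≤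
      r ^ (-(σ + κ / 2)) := by
    rw [← Real.rpow_add hr0, ← Real.rpow_add hr0, ← Real.rpow_add hr0]
    exact Real.rpow_le_rpow_of_exponent_le hr (by linarith)
  have c5 : 0 ≤ (t : ℝ) / (r * (t : ℝ) ^ (2 * m)) := by positivity
  calc r ^ (κ / 4) * (e * ((t : ℝ) / (r * (t : ℝ) ^ (2 * m))))
      ≤ r ^ (κ / 4) * ((D * r ^ (κ / 4) * (W ^ (1 / 2 : ℝ) * r ^ (1 / 4 + δ / 2) +
        W * r ^ (1 / 2 + δ) * s)) * (2 * r ^ (b * (1 - 2 * m) - 1))) :=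
        mul_le_mul_of_nonneg_left (mul_le_mul c2 c1 c5 (he.trans c2)) hRe.le
    _ = 2 * D * W ^ (1 / 2 : ℝ) * (r ^ (κ / 4) * (r ^ (κ / 4) * (r ^ (1 / 4 + δ / 2) *
          r ^ (b * (1 - 2 * m) - 1)))) +
        2 * D * W * (r ^ (κ / 4) * (r ^ (κ / 4) * (r ^ (1 / 2 + δ) * r ^ (b * (1 - 2 * m) - 1)))) * s := by ring
    _ ≤ _ := by
        refine add_le_add (mul_le_mul_of_nonneg_left c4 (by positivity)) ?_
        exact mul_le_mul_of_nonneg_right (mul_le_mul_of_nonneg_left c3 (by positivity)) hs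

/-- **The improvement step.** -/
theorem step {w E S : ℕ → ℝ} (hw : ∀ n, 0 ≤ w n) (hE : ∀ n, 0 ≤ E n) (hS : ∀ n, 0 ≤ S n) (hRC : RC w E S)
    (hEW : EW w E S) {c δ κ : ℝ} (hc0 : 0 < c) (hc1 : c ≤ 1) (hδ : δ = c ^ 2 / 16) (hκ : κ = c ^ 2 / 1000)
    {W : ℝ} (hW : 0 ≤ W) (hwW : ∀ n : ℕ, 1 ≤ n → w n ≤ W * (n : ℝ) ^ (1 / 2 + δ)) {σ : ℝ} (h1 : -κ ≤ σ)
    (h2 : σ ≤ 1 / 4 - c / 4) (hP : PB S σ) : PB S (σ + κ / 4) := by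
  obtain ⟨C₀, hC₀, hS0⟩ := id hP
  have hcc : c ^ 2 ≤ c := by nlinarith
  have hκ0 : 0 < κ := by rw [hκ]; positivity
  have hδ0 : 0 < δ := by rw [hδ]; positivity
  obtain ⟨C, hC⟩ := hRC (κ / 4) (by positivity)
  obtain ⟨D, hD⟩ := hEW (κ / 4) (by positivity)
  obtain ⟨x, hx⟩ : ∃ x : ℝ, x = 1 / 4 - δ / 2 := ⟨_, rfl⟩
  obtain ⟨b, hb⟩ : ∃ b : ℝ, b = (σ + 3 * κ) / x := ⟨_, rfl⟩
  obtain ⟨n1, n2, n3, n4, n5, n6, n7⟩ := numbers hc0 hc1 hδ hκ h1 h2 hx hb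
  obtain ⟨m, hm⟩ : ∃ m : ℝ, m = max σ 0 := ⟨_, rfl⟩
  rw [← hm] at n7
  have hm0 : 0 ≤ m := hm ▸ le_max_right _ _
  have hmκ : m - σ ≤ κ := by
    rcases le_total 0 σ with h | h
    · rw [hm, max_eq_left h]; linarith
    · rw [hm, max_eq_right h]; linarith
  have hm14 : m ≤ 1 / 4 := by
    rw [hm]; exact max_le (by linarith) (by norm_num)
  have hWh : 0 ≤ W ^ (1 / 2 : ℝ) := Real.rpow_nonneg hW _
  -- absorb for large R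
  obtain ⟨R₁, hR₁⟩ : ∃ R₁ : ℕ, ∀ R : ℕ, R₁ ≤ R → |C| * (2 * |D| * W) * (R : ℝ) ^ (-κ) ≤ 1 / 2 := by
    have ht : Tendsto (fun R : ℕ => |C| * (2 * |D| * W) * (R : ℝ) ^ (-κ)) atTop
        (𝓝 (|C| * (2 * |D| * W) * 0)) :=
      ((tendsto_rpow_neg_atTop hκ0).comp tendsto_natCast_atTop_atTop).const_mul _
    rw [mul_zero] at ht
    exact (ht.eventually (Iic_mem_nhds (show (0 : ℝ) < 1 / 2 by norm_num))).exists_forall_of_atTop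
  refine hP.of_large (by linarith)
    (K := 2 * (|C| * (2 * |D| * W ^ (1 / 2 : ℝ) + 2 * C₀ + W ^ (1 / 2 : ℝ) * (1 + C₀ ^ 2)))) (R₁ := R₁)
    fun R hR hRR => ?_
  have hR1 : (1 : ℝ) ≤ R := by exact_mod_cast hR
  have hR0 : (0 : ℝ) < R := by linarith
  obtain ⟨t, ht1, htR, hta, htb⟩ := exists_t n4 n5 hR
  have ht1' : (1 : ℝ) ≤ t := by exact_mod_cast ht1
  have hzt : (t : ℝ) ^ (2 * m) ≤ t := by
    calc (t : ℝ) ^ (2 * m) ≤ (t : ℝ) ^ (1 : ℝ) := Real.rpow_le_rpow_of_exponent_le ht1' (by linarith)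
      _ = t := Real.rpow_one _
  have hrc := hC t R ht1 htR _ (Real.one_le_rpow ht1' (by linarith)) hzt
  have hRe : 0 < (R : ℝ) ^ (κ / 4) := Real.rpow_pos_of_pos hR0 _
  have t3 := term3 hw hS (δ := δ) hW (hwW t ht1) hx ht1' hR1 (hS0 t ht1) hmκ hκ0 n3 n5 n2 hta
  have t2 := term2 hC₀ ht1' hR1 (hS0 t ht1) (by linarith) (by rw [hκ] at h1; linarith) hκ0 n6 htb
  have heD : E R ≤ |D| * (R : ℝ) ^ (κ / 4) * (w R ^ (1 / 2 : ℝ) + w R * S R) :=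
    (hD R hR).trans (mul_le_mul_of_nonneg_right (mul_le_mul_of_nonneg_right (le_abs_self _) hRe.le)
      (add_nonneg (Real.rpow_nonneg (hw R) _) (mul_nonneg (hw R) (hS R))))
  have t1 := term1 (c := c) (σ := σ) hW (abs_nonneg D) ht1' hR1 hm0 hta htb (hE R) (hS R) (hw R) (hwW R hR)
    heD n7 hδ0 hκ0 (by rw [hκ]; linarith) h2
  have hm1 : (R : ℝ) ^ (-(σ + κ / 2)) ≤ (R : ℝ) ^ (-(σ + κ / 4)) :=
    Real.rpow_le_rpow_of_exponent_le hR1 (by linarith)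
  set T : ℝ := (R : ℝ) ^ (-(σ + κ / 4)) with hT
  set T' : ℝ := (R : ℝ) ^ (-(σ + κ / 2)) with hT'
  set X1 : ℝ := E R * ((t : ℝ) / (R * (t : ℝ) ^ (2 * m))) with hX1
  set X2 : ℝ := S t * ((t : ℝ) / R) ^ (1 / 2 : ℝ) with hX2
  set X3 : ℝ := (w t / t) ^ (1 / 2 : ℝ) * (1 + (t : ℝ) ^ (2 * m) * S t ^ 2) with hX3
  have p1 : 0 ≤ X1 := mul_nonneg (hE R) (by positivity)
  have p2 : 0 ≤ X2 := mul_nonneg (hS t) (by positivity)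
  have p3 : 0 ≤ X3 := mul_nonneg (Real.rpow_nonneg (div_nonneg (hw t) (by positivity)) _) (by positivity)
  have q1 : S R ≤ |C| * ((R : ℝ) ^ (κ / 4) * X1 + (R : ℝ) ^ (κ / 4) * X2 + (R : ℝ) ^ (κ / 4) * X3) := by
    calc S R ≤ C * (R : ℝ) ^ (κ / 4) * (X1 + X2 + X3) := hrc
      _ ≤ |C| * (R : ℝ) ^ (κ / 4) * (X1 + X2 + X3) :=
          mul_le_mul_of_nonneg_right (mul_le_mul_of_nonneg_right (le_abs_self _) hRe.le) (by linarith)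
      _ = _ := by ring
  have k1 : 2 * |D| * W ^ (1 / 2 : ℝ) * T' ≤ 2 * |D| * W ^ (1 / 2 : ℝ) * T :=
    mul_le_mul_of_nonneg_left hm1 (by positivity)
  have k3 : W ^ (1 / 2 : ℝ) * (1 + C₀ ^ 2) * T' ≤ W ^ (1 / 2 : ℝ) * (1 + C₀ ^ 2) * T :=
    mul_le_mul_of_nonneg_left hm1 (by positivity)
  have q2 : (R : ℝ) ^ (κ / 4) * X1 + (R : ℝ) ^ (κ / 4) * X2 + (R : ℝ) ^ (κ / 4) * X3 ≤
      (2 * |D| * W ^ (1 / 2 : ℝ) + 2 * C₀ + W ^ (1 / 2 : ℝ) * (1 + C₀ ^ 2)) * T +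
        2 * |D| * W * (R : ℝ) ^ (-κ) * S R := by linarith
  have q3 := q1.trans (mul_le_mul_of_nonneg_left q2 (abs_nonneg C))
  have q4 : |C| * (2 * |D| * W) * (R : ℝ) ^ (-κ) * S R ≤ 1 / 2 * S R :=
    mul_le_mul_of_nonneg_right (hR₁ R hRR) (hS R)
  have q5 : |C| * ((2 * |D| * W ^ (1 / 2 : ℝ) + 2 * C₀ + W ^ (1 / 2 : ℝ) * (1 + C₀ ^ 2)) * T +
      2 * |D| * W * (R : ℝ) ^ (-κ) * S R) =
      |C| * (2 * |D| * W ^ (1 / 2 : ℝ) + 2 * C₀ + W ^ (1 / 2 : ℝ) * (1 + C₀ ^ 2)) * T +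
        |C| * (2 * |D| * W) * (R : ℝ) ^ (-κ) * S R := by ring
  rw [q5] at q3
  linarith

/-- The iteration of the improvement step. -/
theorem iterate {w E S : ℕ → ℝ} (hw : ∀ n, 0 ≤ w n) (hE : ∀ n, 0 ≤ E n) (hS : ∀ n, 0 ≤ S n) (hRC : RC w E S)
    (hEW : EW w E S) (hS0 : ∀ ε : ℝ, 0 < ε → PB S (-ε)) {c δ κ : ℝ} (hc0 : 0 < c) (hc1 : c ≤ 1)
    (hδ : δ = c ^ 2 / 16) (hκ : κ = c ^ 2 / 1000)
    {W : ℝ} (hW : 0 ≤ W) (hwW : ∀ n : ℕ, 1 ≤ n → w n ≤ W * (n : ℝ) ^ (1 / 2 + δ)) :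
    PB S (1 / 4 - c / 4) := by
  have hκ0 : 0 < κ := by rw [hκ]; positivity
  have ind : ∀ k : ℕ, -κ + k * (κ / 4) ≤ 1 / 4 - c / 4 + κ / 4 → PB S (-κ + k * (κ / 4)) := by
    intro k
    induction k with
    | zero => intro _; simpa using hS0 κ hκ0
    | succ k ih =>
      intro hk
      push_cast at hk ⊢
      have h1 : -κ + k * (κ / 4) ≤ 1 / 4 - c / 4 := by linarith
      have h2 := ih (by linarith)
      have h3 : -κ ≤ -κ + k * (κ / 4) := by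
        have : 0 ≤ (k : ℝ) * (κ / 4) := by positivity
        linarith
      have h4 := step hw hE hS hRC hEW hc0 hc1 hδ hκ hW hwW h3 h1 h2
      have e : -κ + ((k : ℝ) + 1) * (κ / 4) = -κ + k * (κ / 4) + κ / 4 := by ring
      rw [e]; exact h4
  have h5 : 0 ≤ (1 / 4 - c / 4 + 5 * κ / 4) / (κ / 4) := by
    apply div_nonneg <;> linarith
  set k : ℕ := ⌊(1 / 4 - c / 4 + 5 * κ / 4) / (κ / 4)⌋₊ with hk
  have h6 : (k : ℝ) ≤ (1 / 4 - c / 4 + 5 * κ / 4) / (κ / 4) := Nat.floor_le h5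
  have h7 : (1 / 4 - c / 4 + 5 * κ / 4) / (κ / 4) < k + 1 := Nat.lt_floor_add_one _
  rw [le_div_iff₀ (by linarith)] at h6
  rw [div_lt_iff₀ (by linarith)] at h7
  exact (ind k (by linarith)).mono (by linarith)

/-- **STORM Z, the closing algebra.** -/
theorem superdiffusive {w E S : ℕ → ℝ} (hw : ∀ n, 0 ≤ w n) (hE : ∀ n, 0 ≤ E n) (hS : ∀ n, 0 ≤ S n)
    (hRC : RC w E S) (hEW : EW w E S) (hS0 : ∀ ε : ℝ, 0 < ε → PB S (-ε)) {c : ℝ} (hc : 0 < c)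
    (hNP : ∀ᶠ n : ℕ in atTop, (n : ℝ) ^ (1 + c) ≤ w n * E n ^ 2) :
    ∃ c' : ℝ, 0 < c' ∧ ∃ᶠ n : ℕ in atTop, (n : ℝ) ^ (1 / 2 + c') ≤ w n := by
  -- c ≤ 1
  set a : ℝ := min c 1 with ha
  have ha0 : 0 < a := lt_min hc one_pos
  have ha1 : a ≤ 1 := min_le_right _ _
  have hac : a ≤ c := min_le_left _ _
  have haa : a ^ 2 ≤ a := by nlinarith
  set δ : ℝ := a ^ 2 / 16 with hδ
  set κ : ℝ := a ^ 2 / 1000 with hκ
  have hδ0 : 0 < δ := by positivity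
  have hκ0 : 0 < κ := by positivity
  refine ⟨δ, hδ0, fun hnot => ?_⟩
  -- the bound of w for all n
  obtain ⟨W, hW, hwW⟩ : ∃ W : ℝ, 0 ≤ W ∧ ∀ n : ℕ, 1 ≤ n → w n ≤ W * (n : ℝ) ^ (1 / 2 + δ) := by
    obtain ⟨N, hN⟩ := hnot.exists_forall_of_atTop
    refine ⟨1 + ∑ i ∈ Finset.range N, w i, by
      have := Finset.sum_nonneg (fun i (_ : i ∈ Finset.range N) => hw i); linarith, fun n hn => ?_⟩
    have hn1 : (1 : ℝ) ≤ n := by exact_mod_cast hn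
    have hp : (1 : ℝ) ≤ (n : ℝ) ^ (1 / 2 + δ) := Real.one_le_rpow hn1 (by linarith)
    have hsum : 0 ≤ ∑ i ∈ Finset.range N, w i := Finset.sum_nonneg (fun i _ => hw i)
    rcases le_or_gt N n with h | h
    · have := not_le.1 (hN n h)
      nlinarith
    · have h1 : w n ≤ ∑ i ∈ Finset.range N, w i :=
        Finset.single_le_sum (f := w) (fun i _ => hw i) (Finset.mem_range.2 h)
      nlinarith
  obtain ⟨C, hC, hP⟩ := iterate hw hE hS hRC hEW hS0 ha0 ha1 hδ hκ hW hwW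
  obtain ⟨D, hD⟩ := hEW (κ / 4) (by positivity)
  set D' : ℝ := |D|
  set K : ℝ := D' * (W ^ (1 / 2 : ℝ) + W * C) with hK
  have hWh : 0 ≤ W ^ (1 / 2 : ℝ) := Real.rpow_nonneg hW _
  have hK0 : 0 ≤ K := by positivity
  -- E is too small
  have hEb : ∀ R : ℕ, 1 ≤ R → E R ≤ K * (R : ℝ) ^ (κ / 4 + 1 / 4 + δ + a / 4) := by
    intro R hR
    have hR1 : (1 : ℝ) ≤ R := by exact_mod_cast hR
    have hR0 : (0 : ℝ) < R := by linarith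
    have hRe : 0 < (R : ℝ) ^ (κ / 4) := Real.rpow_pos_of_pos hR0 _
    have e2 : w R ^ (1 / 2 : ℝ) ≤ W ^ (1 / 2 : ℝ) * (R : ℝ) ^ (1 / 4 + δ + a / 4) := by
      calc w R ^ (1 / 2 : ℝ) ≤ (W * (R : ℝ) ^ (1 / 2 + δ)) ^ (1 / 2 : ℝ) :=
            Real.rpow_le_rpow (hw R) (hwW R hR) (by norm_num)
        _ = W ^ (1 / 2 : ℝ) * (R : ℝ) ^ ((1 / 2 + δ) * (1 / 2)) := by
            rw [Real.mul_rpow hW (Real.rpow_nonneg hR0.le _), ← Real.rpow_mul hR0.le]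
        _ ≤ _ := mul_le_mul_of_nonneg_left (Real.rpow_le_rpow_of_exponent_le hR1 (by linarith)) hWh
    have e3 : w R * S R ≤ W * C * (R : ℝ) ^ (1 / 4 + δ + a / 4) := by
      calc w R * S R ≤ (W * (R : ℝ) ^ (1 / 2 + δ)) * (C * (R : ℝ) ^ (-(1 / 4 - a / 4))) :=
            mul_le_mul (hwW R hR) (hP R hR) (hS R) (by positivity)
        _ = W * C * ((R : ℝ) ^ (1 / 2 + δ) * (R : ℝ) ^ (-(1 / 4 - a / 4))) := by ring
        _ = _ := by rw [← Real.rpow_add hR0]; congr 2; ring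
    have e4 : 0 ≤ w R ^ (1 / 2 : ℝ) + w R * S R :=
      add_nonneg (Real.rpow_nonneg (hw R) _) (mul_nonneg (hw R) (hS R))
    calc E R ≤ D * (R : ℝ) ^ (κ / 4) * (w R ^ (1 / 2 : ℝ) + w R * S R) := hD R hR
      _ ≤ D' * (R : ℝ) ^ (κ / 4) * (w R ^ (1 / 2 : ℝ) + w R * S R) :=
          mul_le_mul_of_nonneg_right (mul_le_mul_of_nonneg_right (le_abs_self _) hRe.le) e4
      _ ≤ D' * (R : ℝ) ^ (κ / 4) * (W ^ (1 / 2 : ℝ) * (R : ℝ) ^ (1 / 4 + δ + a / 4) +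
            W * C * (R : ℝ) ^ (1 / 4 + δ + a / 4)) :=
          mul_le_mul_of_nonneg_left (add_le_add e2 e3) (mul_nonneg (abs_nonneg _) hRe.le)
      _ = K * ((R : ℝ) ^ (κ / 4) * (R : ℝ) ^ (1 / 4 + δ + a / 4)) := by rw [hK]; ring
      _ = _ := by rw [← Real.rpow_add hR0]; congr 2; ring
  -- the contradiction
  have hθ : 0 < a / 2 - 3 * δ - κ / 2 := by
    rw [hδ, hκ]; linarith
  have ht : Tendsto (fun R : ℕ => (R : ℝ) ^ (a / 2 - 3 * δ - κ / 2)) atTop atTop :=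
    (tendsto_rpow_atTop hθ).comp tendsto_natCast_atTop_atTop
  obtain ⟨R, hR⟩ := ((hNP.and (eventually_ge_atTop 1)).and (ht.eventually_gt_atTop (W * K ^ 2))).exists
  obtain ⟨⟨hRN, hRone⟩, hRbig⟩ := hR
  have hR1 : (1 : ℝ) ≤ R := by exact_mod_cast hRone
  have hR0 : (0 : ℝ) < R := by linarith
  have h1 : w R * E R ^ 2 ≤ (W * K ^ 2) * (R : ℝ) ^ (1 + 3 * δ + κ / 2 + a / 2) := by
    have h2 := hEb R hRone
    have h3 : E R ^ 2 ≤ (K * (R : ℝ) ^ (κ / 4 + 1 / 4 + δ + a / 4)) ^ 2 := pow_le_pow_left₀ (hE R) h2 2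
    calc w R * E R ^ 2 ≤ (W * (R : ℝ) ^ (1 / 2 + δ)) * (K * (R : ℝ) ^ (κ / 4 + 1 / 4 + δ + a / 4)) ^ 2 :=
          mul_le_mul (hwW R hRone) h3 (sq_nonneg _) (by positivity)
      _ = (W * K ^ 2) * ((R : ℝ) ^ (1 / 2 + δ) * ((R : ℝ) ^ (κ / 4 + 1 / 4 + δ + a / 4) *
            (R : ℝ) ^ (κ / 4 + 1 / 4 + δ + a / 4))) := by ring
      _ = _ := by
          rw [← Real.rpow_add hR0, ← Real.rpow_add hR0]; congr 2; ring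
  have h4 : (R : ℝ) ^ (1 + a) ≤ (R : ℝ) ^ (1 + c) := Real.rpow_le_rpow_of_exponent_le hR1 (by linarith)
  have h5 : (R : ℝ) ^ (1 + a) = (R : ℝ) ^ (a / 2 - 3 * δ - κ / 2) * (R : ℝ) ^ (1 + 3 * δ + κ / 2 + a / 2) := by
    rw [← Real.rpow_add hR0]; congr 1; ring
  have h6 : 0 < (R : ℝ) ^ (1 + 3 * δ + κ / 2 + a / 2) := Real.rpow_pos_of_pos hR0 _
  have h7 : (R : ℝ) ^ (a / 2 - 3 * δ - κ / 2) * (R : ℝ) ^ (1 + 3 * δ + κ / 2 + a / 2) ≤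
      (W * K ^ 2) * (R : ℝ) ^ (1 + 3 * δ + κ / 2 + a / 2) := by
    rw [← h5]; linarith
  exact absurd (le_of_mul_le_mul_right h7 h6) (not_le.2 hRbig)

end

end Pool.Agent.W_7d29a1_Z10
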