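import Pool.Agent.W_7d29a1_Z10.AlgP

/-!
STORM Z: the bound of the energy scale by the response of the patterns (`EWP`), abstract form. (helper10)
-/

namespace Pool.Agent.W_7d29a1_Z10

open Filter Topology

/-- **`EWP` from the TOP inequality and the strict Newman - Piza inequality**: `z` is the size of the pattern. -/
theorem ewp_core {w E : ℕ → ℝ} {P : ℝ → Prop} (hw : ∀ n, 0 ≤ w n) (hE : ∀ n, 0 ≤ E n) {K : ℝ} (hK : 0 < K)
    (hT : ∀ σ : ℝ, 0 ≤ σ → σ < 1 / 4 → P σ → ∀ e : ℝ, 0 < e → ∀ᶠ n : ℕ in atTop, ∃ z : ℝ, 1 ≤ z ∧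
      (n : ℝ) ^ (2 * σ - e) ≤ z ∧ E n ≤ K * (w n / z + 1) * ((n : ℝ) ^ (σ + e) + 1))
    {c : ℝ} (hc : 0 < c) (hNP : ∀ᶠ n : ℕ in atTop, (n : ℝ) ^ (1 + c) ≤ w n * E n ^ 2) :
    EWP w E P := by
  intro σ hσ hσ4 hP ε hε
  obtain ⟨e, he0, he1, he2⟩ : ∃ e : ℝ, 0 < e ∧ 4 * e ≤ ε ∧ 4 * e ≤ c :=
    ⟨min ε c / 4, by positivity, by linarith [min_le_left ε c], by linarith [min_le_right ε c]⟩
  have ht1 : ∀ {a : ℝ}, 0 < a → Tendsto (fun n : ℕ => (n : ℝ) ^ a) atTop atTop := fun ha =>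
    (tendsto_rpow_atTop ha).comp tendsto_natCast_atTop_atTop
  filter_upwards [hT σ hσ hσ4 hP e he0, hNP, eventually_ge_atTop 1,
    (ht1 he0).eventually_ge_atTop (4 * K), (ht1 (show 0 < 1 + c - 4 * σ - e by linarith)).eventually_gt_atTop
      ((4 * K) ^ 2)] with n h1 h3 h4 h5 h6
  obtain ⟨z, hzr, hz2, hE1⟩ := h1
  have hn1 : (1 : ℝ) ≤ n := by exact_mod_cast h4
  have hn0 : (0 : ℝ) < n := by linarith
  have hA1 : (1 : ℝ) ≤ (n : ℝ) ^ (σ + e) := Real.one_le_rpow hn1 (by linarith)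
  have hz0 : (0 : ℝ) < z := by linarith
  have hwz : w n / z ≤ w n * (n : ℝ) ^ (-(2 * σ - e)) := by
    rw [div_le_iff₀ hz0]
    have h7 : (1 : ℝ) ≤ (n : ℝ) ^ (-(2 * σ - e)) * z := by
      calc (1 : ℝ) = (n : ℝ) ^ (-(2 * σ - e)) * (n : ℝ) ^ (2 * σ - e) := by
            rw [← Real.rpow_add hn0, neg_add_cancel, Real.rpow_zero]
        _ ≤ _ := mul_le_mul_of_nonneg_left hz2 (Real.rpow_nonneg hn0.le _)
    calc w n = w n * 1 := (mul_one _).symm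
      _ ≤ w n * ((n : ℝ) ^ (-(2 * σ - e)) * z) := mul_le_mul_of_nonneg_left h7 (hw n)
      _ = _ := by ring
  have hE2 : E n ≤ 2 * K * (w n * (n : ℝ) ^ (-(2 * σ - e)) + 1) * (n : ℝ) ^ (σ + e) := by
    have h8 : 0 ≤ w n / z := div_nonneg (hw n) hz0.le
    calc E n ≤ K * (w n / z + 1) * ((n : ℝ) ^ (σ + e) + 1) := hE1
      _ ≤ K * (w n * (n : ℝ) ^ (-(2 * σ - e)) + 1) * (2 * (n : ℝ) ^ (σ + e)) :=
          mul_le_mul (mul_le_mul_of_nonneg_left (by linarith) hK.le) (by linarith) (by linarith)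
            (mul_nonneg hK.le (by linarith))
      _ = _ := by ring
  -- `w n` is at least the size of the pattern
  have hbig : 1 ≤ w n * (n : ℝ) ^ (-(2 * σ - e)) := by
    by_contra hlt
    push Not at hlt
    have hp1 : 0 < (n : ℝ) ^ (σ + e) := Real.rpow_pos_of_pos hn0 _
    have hE3 : E n ≤ 4 * K * (n : ℝ) ^ (σ + e) := by
      refine hE2.trans ?_
      have : 2 * K * (w n * (n : ℝ) ^ (-(2 * σ - e)) + 1) ≤ 4 * K := by nlinarith
      exact mul_le_mul_of_nonneg_right this hp1.le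
    have hw2 : w n ≤ (n : ℝ) ^ (2 * σ - e) := by
      have h9 : (n : ℝ) ^ (-(2 * σ - e)) * (n : ℝ) ^ (2 * σ - e) = 1 := by
        rw [← Real.rpow_add hn0, neg_add_cancel, Real.rpow_zero]
      have h10 : 0 < (n : ℝ) ^ (2 * σ - e) := Real.rpow_pos_of_pos hn0 _
      calc w n = w n * ((n : ℝ) ^ (-(2 * σ - e)) * (n : ℝ) ^ (2 * σ - e)) := by rw [h9, mul_one]
        _ = (w n * (n : ℝ) ^ (-(2 * σ - e))) * (n : ℝ) ^ (2 * σ - e) := by ring
        _ ≤ 1 * (n : ℝ) ^ (2 * σ - e) := mul_le_mul_of_nonneg_right hlt.le h10.le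
        _ = _ := one_mul _
    have h11 : w n * E n ^ 2 ≤ (4 * K) ^ 2 * (n : ℝ) ^ (4 * σ + e) := by
      calc w n * E n ^ 2 ≤ (n : ℝ) ^ (2 * σ - e) * (4 * K * (n : ℝ) ^ (σ + e)) ^ 2 :=
            mul_le_mul hw2 (pow_le_pow_left₀ (hE n) hE3 2) (sq_nonneg _) (Real.rpow_nonneg hn0.le _)
        _ = (4 * K) ^ 2 * ((n : ℝ) ^ (2 * σ - e) * ((n : ℝ) ^ (σ + e) * (n : ℝ) ^ (σ + e))) := by ring
        _ = _ := by rw [← Real.rpow_add hn0, ← Real.rpow_add hn0]; congr 2; ring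
    have h12 : (n : ℝ) ^ (1 + c) = (n : ℝ) ^ (1 + c - 4 * σ - e) * (n : ℝ) ^ (4 * σ + e) := by
      rw [← Real.rpow_add hn0]; congr 1; ring
    have h13 : 0 < (n : ℝ) ^ (4 * σ + e) := Real.rpow_pos_of_pos hn0 _
    rw [h12] at h3
    exact absurd (le_of_mul_le_mul_right (h3.trans h11) h13) (not_le.2 h6)
  have hp : 0 ≤ (n : ℝ) ^ (σ + e) := Real.rpow_nonneg hn0.le _
  have hfin : E n ≤ (n : ℝ) ^ ε * (w n * (n : ℝ) ^ (-σ)) := by
    calc E n ≤ 2 * K * (w n * (n : ℝ) ^ (-(2 * σ - e)) + 1) * (n : ℝ) ^ (σ + e) := hE2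
      _ ≤ 2 * K * (2 * (w n * (n : ℝ) ^ (-(2 * σ - e)))) * (n : ℝ) ^ (σ + e) :=
          mul_le_mul_of_nonneg_right (mul_le_mul_of_nonneg_left (by linarith) (by positivity)) hp
      _ = 4 * K * (w n * ((n : ℝ) ^ (-(2 * σ - e)) * (n : ℝ) ^ (σ + e))) := by ring
      _ = 4 * K * (w n * (n : ℝ) ^ (-σ + 2 * e)) := by
          rw [← Real.rpow_add hn0]; congr 3; ring
      _ ≤ (n : ℝ) ^ e * (w n * (n : ℝ) ^ (-σ + 2 * e)) :=
          mul_le_mul_of_nonneg_right h5 (mul_nonneg (hw n) (Real.rpow_nonneg hn0.le _))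
      _ = w n * ((n : ℝ) ^ e * (n : ℝ) ^ (-σ + 2 * e)) := by ring
      _ = w n * (n : ℝ) ^ (-σ + 3 * e) := by rw [← Real.rpow_add hn0]; congr 2; ring
      _ ≤ w n * ((n : ℝ) ^ ε * (n : ℝ) ^ (-σ)) := by
          refine mul_le_mul_of_nonneg_left ?_ (hw n)
          rw [← Real.rpow_add hn0]
          exact Real.rpow_le_rpow_of_exponent_le hn1 (by linarith)
      _ = _ := by ring
  refine hfin.trans (mul_le_mul_of_nonneg_left ?_ (Real.rpow_nonneg hn0.le _))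
  have := Real.rpow_nonneg (hw n) (1 / 2 : ℝ)
  linarith

end Pool.Agent.W_7d29a1_Z10
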