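import Pool.Agent.W_7d29a1_Z.Act

/-!
STORM Z, leaf Stp, part (C): quenched probabilities of events of the path, Markov, union over all the systems `[u, u + N]`.
(helper10)
-/

namespace Pool.Agent.W_7d29a1_Z10

open MeasureTheory ProbabilityTheory Filter Topology Finset
open Pool.Agent.W_7d29a1_F Pool.Agent.W_7d29a1_X Pool.Agent.W_7d29a1_G
open Pool.Agent.W_7d29a1_Z
open scoped ENNReal

noncomputable section

variable {μ : Measure ℝ}

open Classical in
/-- The quenched probability of the event `A`. -/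
def Qg (μ : Measure ℝ) (N : ℕ) (y : ℤ) (A : Env → Finset ℕ → Prop) (η : Env) : ℝ :=
  ∑ S ∈ (range N).powerset, if A η S then gp μ η N y S else 0

theorem Qg_nonneg (N : ℕ) (y : ℤ) (A : Env → Finset ℕ → Prop) (η : Env) : 0 ≤ Qg μ N y A η := by
  refine sum_nonneg fun S _ => ?_
  split_ifs
  · exact gp_nonneg _ _ _ _
  · exact le_rfl

theorem Qg_mono {N : ℕ} {y : ℤ} {A B : Env → Finset ℕ → Prop} {η : Env}
    (h : ∀ S ∈ (range N).powerset, pos S N = y → A η S → B η S) : Qg μ N y A η ≤ Qg μ N y B η := by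
  refine sum_le_sum fun S hS => ?_
  by_cases hy : pos S N = y
  · by_cases hA : A η S
    · rw [if_pos hA, if_pos (h S hS hy hA)]
    · rw [if_neg hA]
      split_ifs
      · exact gp_nonneg _ _ _ _
      · exact le_rfl
  · rw [gp_of_ne η hy]
    simp

theorem Qg_meas {N : ℕ} {y : ℤ} {A : Env → Finset ℕ → Prop} (hA : Ms A) : Measurable (Qg μ N y A) :=
  Finset.measurable_sum _ fun S _ => Measurable.ite (hA S) (measurable_gp N y S) measurable_const

theorem P1_lint [IsProbabilityMeasure μ] {N : ℕ} {y : ℤ} {A : Env → Finset ℕ → Prop} (hA : Ms A) :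
    P1 μ N y A = ∫⁻ η, ENNReal.ofReal (Qg μ N y A η) ∂law μ := by
  classical
  rw [P1_eq]
  have e1 : ∀ S, ∫⁻ η in {η | A η S}, ENNReal.ofReal (gp μ η N y S) ∂law μ =
      ∫⁻ η, ENNReal.ofReal (if A η S then gp μ η N y S else 0) ∂law μ := by
    intro S
    rw [← lintegral_indicator (hA S)]
    refine lintegral_congr fun η => ?_
    by_cases hη : A η S
    · rw [Set.indicator_of_mem (show η ∈ {η | A η S} from hη), if_pos hη]
    · rw [Set.indicator_of_notMem (show η ∉ {η | A η S} from hη), if_neg hη, ENNReal.ofReal_zero]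
  simp only [e1]
  rw [← lintegral_finsetSum _ fun S _ => (Measurable.ite (hA S) (measurable_gp N y S) measurable_const).ennreal_ofReal]
  refine lintegral_congr fun η => ?_
  rw [← ENNReal.ofReal_sum_of_nonneg fun S _ => ?_]
  · rfl
  · split_ifs
    · exact gp_nonneg _ _ _ _
    · exact le_rfl

/-- Markov. -/
theorem Qg_markov [IsProbabilityMeasure μ] {N : ℕ} {y : ℤ} {A : Env → Finset ℕ → Prop} (hA : Ms A) {θ q : ℝ} (hθ : 0 < θ)
    (hq : P1 μ N y A ≤ ENNReal.ofReal q) : law μ {η | θ < Qg μ N y A η} ≤ ENNReal.ofReal (θ⁻¹ * q) := by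
  have hm : Measurable fun η : Env => ENNReal.ofReal (Qg μ N y A η) := (Qg_meas hA).ennreal_ofReal
  have h := mul_meas_ge_le_lintegral (μ := law μ) hm (ENNReal.ofReal θ)
  rw [← P1_lint hA] at h
  have hsub : {η : Env | θ < Qg μ N y A η} ⊆ {η : Env | ENNReal.ofReal θ ≤ ENNReal.ofReal (Qg μ N y A η)} :=
    fun η hη => ENNReal.ofReal_le_ofReal (le_of_lt hη)
  have hθ0 : ENNReal.ofReal θ ≠ 0 := by simpa using hθ
  have h1 : ENNReal.ofReal θ⁻¹ * ENNReal.ofReal θ = 1 := by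
    rw [← ENNReal.ofReal_mul (by positivity), inv_mul_cancel₀ hθ.ne', ENNReal.ofReal_one]
  rw [ENNReal.ofReal_mul (by positivity)]
  calc law μ {η | θ < Qg μ N y A η} ≤ law μ {η : Env | ENNReal.ofReal θ ≤ ENNReal.ofReal (Qg μ N y A η)} :=
        measure_mono hsub
    _ = ENNReal.ofReal θ⁻¹ * (ENNReal.ofReal θ * law μ {η : Env | ENNReal.ofReal θ ≤ ENNReal.ofReal (Qg μ N y A η)}) := by
        rw [← mul_assoc, h1, one_mul]
    _ ≤ ENNReal.ofReal θ⁻¹ * ENNReal.ofReal q := by gcongr; exact h.trans hq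

theorem Qg_markov_sh [IsProbabilityMeasure μ] {N : ℕ} {y : ℤ} {A : Env → Finset ℕ → Prop} (hA : Ms A) {θ q : ℝ} (hθ : 0 < θ)
    (hq : P1 μ N y A ≤ ENNReal.ofReal q) (a : Pt) : law μ {η | θ < Qg μ N y A (sh a η)} ≤ ENNReal.ofReal (θ⁻¹ * q) := by
  have h1 := (mp_sh (μ := μ) a).measure_preimage
    ((measurableSet_lt measurable_const (Qg_meas (μ := μ) (N := N) (y := y) hA)).nullMeasurableSet (μ := law μ) (s := {η | θ < Qg μ N y A η}))
  rw [Set.preimage_setOf_eq] at h1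
  rw [h1]
  exact Qg_markov hA hθ hq

/-- The union over the systems `[u, u + N]`, `u, N ≤ R`, with the end point `y`. -/
theorem Qg_union [IsProbabilityMeasure μ] (R : ℕ) (P : ℕ → ℕ → ℤ → Prop) (A : ℕ → ℕ → ℤ → Env → Finset ℕ → Prop)
    (hA : ∀ u N y, Ms (A u N y)) {θ q : ℝ} (hθ : 0 < θ) (hq : 0 ≤ q)
    (h : ∀ u N : ℕ, ∀ y : ℤ, u ≤ R → N ≤ R → 0 ≤ y → y ≤ N → P u N y → P1 μ N y (A u N y) ≤ ENNReal.ofReal q) :
    law μ {η | ∃ u N : ℕ, ∃ y : ℤ, u ≤ R ∧ N ≤ R ∧ 0 ≤ y ∧ y ≤ N ∧ P u N y ∧ θ < Qg μ N y (A u N y) (sh ((u : ℤ), 0) η)} ≤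
      ENNReal.ofReal (((R : ℝ) + 1) ^ 3 * (θ⁻¹ * q)) := by
  classical
  set F : Finset (ℕ × ℕ × ℕ) := (range (R + 1)) ×ˢ ((range (R + 1)) ×ˢ (range (R + 1))) with hF
  set G : ℕ × ℕ × ℕ → Set Env := fun p => if p.2.2 ≤ p.2.1 ∧ P p.1 p.2.1 p.2.2 then
    {η | θ < Qg μ p.2.1 p.2.2 (A p.1 p.2.1 p.2.2) (sh ((p.1 : ℤ), 0) η)} else ∅ with hG
  have hsub : {η | ∃ u N : ℕ, ∃ y : ℤ, u ≤ R ∧ N ≤ R ∧ 0 ≤ y ∧ y ≤ N ∧ P u N y ∧
      θ < Qg μ N y (A u N y) (sh ((u : ℤ), 0) η)} ⊆ ⋃ p ∈ F, G p := by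
    rintro η ⟨u, N, y, hu, hN, h0, h1, hP, hlt⟩
    lift y to ℕ using h0
    have h1' : y ≤ N := by exact_mod_cast h1
    simp only [Set.mem_iUnion]
    refine ⟨(u, N, y), ?_, ?_⟩
    · simp only [hF, mem_product, mem_range]
      omega
    · simp only [hG]
      rw [if_pos ⟨h1', hP⟩]
      exact hlt
  refine (measure_mono hsub).trans ((measure_biUnion_finset_le _ _).trans ?_)
  have hone : ∀ p ∈ F, law μ (G p) ≤ ENNReal.ofReal (θ⁻¹ * q) := by
    intro p hp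
    simp only [hF, mem_product, mem_range] at hp
    simp only [hG]
    split_ifs with hc
    · exact Qg_markov_sh (hA _ _ _) hθ (h p.1 p.2.1 p.2.2 (by omega) (by omega) (by positivity) (by exact_mod_cast hc.1) hc.2) _
    · simp
  refine (Finset.sum_le_sum hone).trans ?_
  rw [Finset.sum_const, nsmul_eq_mul]
  have hcard : (F.card : ℝ) = ((R : ℝ) + 1) ^ 3 := by
    rw [hF, card_product, card_product, card_range]
    push_cast
    ring
  rw [← hcard, ENNReal.ofReal_mul (p := (F.card : ℝ)) (by positivity), ENNReal.ofReal_natCast]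

end

end Pool.Agent.W_7d29a1_Z10
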