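import Pool.Agent.W_7d29a1_Z10.ExcA
import Pool.Agent.W_7d29a1_Z.RA
import Pool.Agent.W_7d29a1_Z.NS

/-!
STORM Z, leaf Stp, part (C): the good event of the response at the next scale and its probability. (helper10)
-/

namespace Pool.Agent.W_7d29a1_Z10

open MeasureTheory ProbabilityTheory Filter Topology Finset
open Pool.Agent.W_7d29a1_F Pool.Agent.W_7d29a1_X Pool.Agent.W_7d29a1_G
open Pool.Agent.W_7d29a1_SR (In wd)
open Pool.Agent.W_7d29a1_Z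
open scoped ENNReal

noncomputable section

variable {μ : Measure ℝ}

/-! ### Numbers -/

theorem tend_pow {a : ℝ} (ha : 0 < a) : Tendsto (fun n : ℕ => (n : ℝ) ^ a) atTop atTop :=
  (tendsto_rpow_atTop ha).comp tendsto_natCast_atTop_atTop

/-- A stretched exponential absorbs every power and every constant. -/
theorem absorb {g : ℝ} (hg : 0 < g) (K k : ℝ) :
    ∀ᶠ n : ℕ in atTop, K * (n : ℝ) ^ k * Real.exp (-(n : ℝ) ^ g) ≤ Real.exp (-(n : ℝ) ^ (g / 2)) / 6 := by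
  have h1 : Tendsto (fun x : ℝ => x ^ ((k + 1) / g) * Real.exp (-(1 / 2) * x)) atTop (𝓝 0) :=
    tendsto_rpow_mul_exp_neg_mul_atTop_nhds_zero ((k + 1) / g) (1 / 2) (by norm_num)
  filter_upwards [(h1.comp (tend_pow hg)).eventually_le_const one_pos, eventually_ge_atTop 1,
    (tend_pow (show 0 < g / 2 by positivity)).eventually_ge_atTop 2, (tend_pow one_pos).eventually_ge_atTop (6 * |K|)]
    with n hn hn1 h2 h3
  have hn0 : (0 : ℝ) ≤ n := Nat.cast_nonneg n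
  have hnp : (0 : ℝ) < n := by exact_mod_cast hn1
  simp only [Function.comp_apply] at hn
  rw [← Real.rpow_mul hn0, mul_div_cancel₀ _ hg.ne', Real.rpow_add_one hnp.ne'] at hn
  rw [Real.rpow_one] at h3
  have h4 : (n : ℝ) ^ g = (n : ℝ) ^ (g / 2) * (n : ℝ) ^ (g / 2) := by
    rw [← Real.rpow_add hnp]; congr 1; ring
  have h5 : (n : ℝ) ^ (g / 2) ≤ 1 / 2 * (n : ℝ) ^ g := by rw [h4]; nlinarith
  have h6 : Real.exp (-(n : ℝ) ^ g) ≤ Real.exp (-(1 / 2) * (n : ℝ) ^ g) * Real.exp (-(n : ℝ) ^ (g / 2)) := by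
    rw [← Real.exp_add]
    exact Real.exp_le_exp.2 (by linarith)
  have h7 : K * (n : ℝ) ^ k ≤ n * (n : ℝ) ^ k / 6 := by
    have := le_abs_self K
    have h8 : 0 ≤ (n : ℝ) ^ k := Real.rpow_nonneg hn0 _
    nlinarith
  have h9 : 0 < Real.exp (-(n : ℝ) ^ (g / 2)) := Real.exp_pos _
  have h10 : 0 < Real.exp (-(1 / 2) * (n : ℝ) ^ g) := Real.exp_pos _
  have h11 : (0 : ℝ) ≤ n * (n : ℝ) ^ k / 6 := by positivity
  calc K * (n : ℝ) ^ k * Real.exp (-(n : ℝ) ^ g) ≤ n * (n : ℝ) ^ k / 6 * Real.exp (-(n : ℝ) ^ g) :=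
        mul_le_mul_of_nonneg_right h7 (Real.exp_pos _).le
    _ ≤ n * (n : ℝ) ^ k / 6 * (Real.exp (-(1 / 2) * (n : ℝ) ^ g) * Real.exp (-(n : ℝ) ^ (g / 2))) :=
        mul_le_mul_of_nonneg_left h6 h11
    _ = (n : ℝ) ^ k * n * Real.exp (-(1 / 2) * (n : ℝ) ^ g) * Real.exp (-(n : ℝ) ^ (g / 2)) / 6 := by ring
    _ ≤ 1 * Real.exp (-(n : ℝ) ^ (g / 2)) / 6 := by
        have := mul_le_mul_of_nonneg_right hn h9.le
        linarith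
    _ = _ := by ring

/-- The number of systems times the inverse threshold. -/
theorem num_sys {R c' d : ℝ} (hR : 1 ≤ R) (h1 : 8 * R ^ (3 : ℝ) * Real.exp (-R ^ d) ≤ Real.exp (-R ^ (d / 2)) / 6)
    (h2 : 2 ≤ R ^ (d / 4)) (h3 : c' ≤ d / 4) :
    (R + 1) ^ 3 * ((Real.exp (-R ^ c'))⁻¹ * Real.exp (-R ^ d)) ≤ Real.exp (-R ^ c') / 6 := by
  have hR0 : 0 < R := by linarith
  have hcube : (R + 1) ^ 3 ≤ 8 * R ^ 3 := by
    calc (R + 1) ^ 3 ≤ (2 * R) ^ 3 := pow_le_pow_left₀ (by linarith) (by linarith) 3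
      _ = _ := by ring
  have h4 : R ^ (3 : ℝ) = R ^ 3 := by
    rw [show (3 : ℝ) = ((3 : ℕ) : ℝ) by norm_num, Real.rpow_natCast]
  rw [h4] at h1
  have h5 : 0 < (Real.exp (-R ^ c'))⁻¹ := inv_pos.2 (Real.exp_pos _)
  have h5' : 0 < Real.exp (-R ^ d) := Real.exp_pos _
  have h6 : R ^ c' ≤ R ^ (d / 4) := Real.rpow_le_rpow_of_exponent_le hR h3
  have h7 : R ^ (d / 2) = R ^ (d / 4) * R ^ (d / 4) := by
    rw [← Real.rpow_add hR0]; congr 1; ring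
  have h8 : 2 * R ^ c' ≤ R ^ (d / 2) := by
    rw [h7]
    have h10 : 0 ≤ R ^ (d / 4) := by linarith
    nlinarith
  have h9 : Real.exp (-R ^ (d / 2)) ≤ Real.exp (-R ^ c') * Real.exp (-R ^ c') := by
    rw [← Real.exp_add]
    exact Real.exp_le_exp.2 (by linarith)
  calc (R + 1) ^ 3 * ((Real.exp (-R ^ c'))⁻¹ * Real.exp (-R ^ d)) ≤ 8 * R ^ 3 * ((Real.exp (-R ^ c'))⁻¹ * Real.exp (-R ^ d)) :=
        mul_le_mul_of_nonneg_right hcube (mul_pos h5 h5').le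
    _ = (Real.exp (-R ^ c'))⁻¹ * (8 * R ^ 3 * Real.exp (-R ^ d)) := by ring
    _ ≤ (Real.exp (-R ^ c'))⁻¹ * (Real.exp (-R ^ c') * Real.exp (-R ^ c') / 6) :=
        mul_le_mul_of_nonneg_left (by linarith) h5.le
    _ = _ := by field_simp

/-- The size of the width. -/
theorem size_pow {X t a e K W w : ℝ} (hX : 0 < X) (ht : 0 < t) (hw : w ≤ K * t ^ (1 - a) * W) (h : 16 * (K * W) * X ^ e ≤ t ^ a) :
    16 * (X ^ e * w) ≤ t := by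
  have h4 : t ^ a * t ^ (1 - a) = t := by
    rw [← Real.rpow_add ht]; simp
  have h5 : 0 ≤ t ^ (1 - a) := Real.rpow_nonneg ht.le _
  calc 16 * (X ^ e * w) ≤ 16 * (X ^ e * (K * t ^ (1 - a) * W)) := by
        have := mul_le_mul_of_nonneg_left hw (Real.rpow_nonneg hX.le e)
        linarith
    _ = 16 * (K * W) * X ^ e * t ^ (1 - a) := by ring
    _ ≤ t ^ a * t ^ (1 - a) := mul_le_mul_of_nonneg_right h h5
    _ = t := h4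

theorem ratio_three {R N : ℕ} {a : ℝ} (ha : 0 < a) (h1 : R ≤ 2 * N + 1) (h2 : N ≤ R) (h3 : 1 ≤ N) :
    ((R : ℝ) / N) ^ (1 - a) ≤ 3 := by
  have hNr : (0 : ℝ) < N := by exact_mod_cast h3
  have h5 : (R : ℝ) / N ≤ 3 := by
    rw [div_le_iff₀ hNr]
    exact_mod_cast (by omega : R ≤ 3 * N)
  have h6 : 1 ≤ (R : ℝ) / N := by
    rw [le_div_iff₀ hNr, one_mul]
    exact_mod_cast h2
  calc ((R : ℝ) / N) ^ (1 - a) ≤ ((R : ℝ) / N) ^ (1 : ℝ) := Real.rpow_le_rpow_of_exponent_le h6 (by linarith)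
    _ = (R : ℝ) / N := Real.rpow_one _
    _ ≤ 3 := h5

theorem six_add {x : ℝ} (hx : 0 ≤ x) : ENNReal.ofReal (x / 6) + ENNReal.ofReal (x / 6) + ENNReal.ofReal (x / 6) +
    ENNReal.ofReal (x / 6) + ENNReal.ofReal (x / 6) + ENNReal.ofReal (x / 6) = ENNReal.ofReal x := by
  have hx6 : 0 ≤ x / 6 := by positivity
  rw [← ENNReal.ofReal_add hx6 hx6, ← ENNReal.ofReal_add (by positivity) hx6, ← ENNReal.ofReal_add (by positivity) hx6,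
    ← ENNReal.ofReal_add (by positivity) hx6, ← ENNReal.ofReal_add (by positivity) hx6]
  congr 1
  ring

/-! ### The statements of the leaves -/

/-- The statement of `ns`. -/
def NsS (μ : Measure ℝ) : Prop := ∀ ε : ℝ, 0 < ε → ∃ δ c' : ℝ, 0 < δ ∧ 0 < c' ∧ ∃ L₀ : ℕ, ∀ L : ℕ, L₀ ≤ L → ∀ N : ℕ,
  L ≤ 16 * N → N ≤ L → ∀ y : ℤ, 0 ≤ y → y ≤ N → |2 * (y : ℝ) - N| ≤ 2 * ((L : ℝ) ^ δ * wd' μ N) →
  P1 μ N y (fun _ S => ¬ NSp μ L N ε S) ≤ ENNReal.ofReal (Real.exp (-(L : ℝ) ^ c'))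

/-- The statement of `inn` with the rate `q` of the ties. -/
def InnS (μ : Measure ℝ) (q : ℕ → ℝ) : Prop := ∀ ε θ c₀ δ₀ : ℝ, 0 < ε → 0 < θ → 0 < c₀ → 0 < δ₀ → ∃ δ c₁ : ℝ, 0 < δ ∧ 0 < c₁ ∧ ∃ L₀ : ℕ,
  ∀ L : ℕ, L₀ ≤ L → ∀ N t τ B : ℕ, L ≤ 16 * N → N ≤ L → (L : ℝ) ^ θ ≤ t → τ + 2 * t * B ≤ N →
  ∀ y : ℤ, 0 ≤ y → y ≤ N → |2 * (y : ℝ) - N| ≤ 2 * ((L : ℝ) ^ δ * wd' μ N) →
  ∀ I : Finset ℕ, I ⊆ Core t → ∀ A : ℝ, 1 ≤ A → (I.card : ℝ) ≤ (L : ℝ) ^ δ * (A * q t * wd' μ t) →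
  (I.card : ℝ) ≤ (L : ℝ) ^ δ * wd' μ t →
  Rsp μ t I 1 ((L : ℝ) ^ δ₀ * wd' μ t) A (Real.exp (-(L : ℝ) ^ c₀)) → ∀ b₀ m : ℕ, b₀ + m ≤ B →
  P1 μ N y (fun η S => (L : ℝ) ^ ε * (Real.sqrt m + m * (A * q t)) * A <
    |∑ b ∈ Ico b₀ (b₀ + m), Db μ t τ I 1 η b 0 (pos S)|) ≤ ENNReal.ofReal (Real.exp (-(L : ℝ) ^ c₁))

/-- The systems of the scale `R`. -/
def Sys (μ : Measure ℝ) (R : ℕ) (δ : ℝ) (u N : ℕ) (y : ℤ) : Prop :=
  4 * u ≤ R ∧ 3 * R ≤ 4 * (u + N) ∧ u + N ≤ R ∧ 0 ≤ y ∧ y ≤ N ∧ |2 * (y : ℝ) - N| ≤ 2 * ((R : ℝ) ^ δ * wd μ R)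

/-- The good event of the scale `R` for `B` zones of length `t`: all systems `[u, u + N]`, all end points `y` of the cone. -/
structure GoodS (μ : Measure ℝ) (R t τ₀ B : ℕ) (I : Finset ℕ) (v₁ v₂ : ℕ → ℤ) (δ' δ'' ε wt A lam θ : ℝ) (η : Env) : Prop where
  ns : ∀ (u N : ℕ) (y : ℤ), Sys μ R δ' u N y →
    Qg μ N y (fun _ S => ∃ b < B, 2 * wt < |2 * ((pos S (zb t (τ₀ - u) b) : ℝ) - pos S (za t (τ₀ - u) b)) - t|)
      (sh ((u : ℤ), 0) η) ≤ θ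
  ra : RA μ R t τ₀ B I wt A 1 η
  inn : ∀ (u N : ℕ) (y : ℤ), Sys μ R δ' u N y →
    Qg μ N y (fun η S => lam < |∑ b ∈ range B, Db μ t (τ₀ - u) I 1 η b 0 (pos S)|) (sh ((u : ℤ), 0) η) ≤ θ
  pb : PBox μ R δ'' ε η
  pbp : PBox μ R δ'' ε (shr 0 v₁ η)
  pbm : PBox μ R δ'' ε (shr 0 v₂ η)

theorem Ms_path (A : Finset ℕ → Prop) : Ms (fun (_ : Env) S => A S) := fun S => by
  by_cases h : A S
  · simp [h]
  · simp [h]

theorem Ms_Db (t τ B : ℕ) (I : Finset ℕ) (lam : ℝ) :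
    Ms (fun η S => lam < |∑ b ∈ range B, Db μ t τ I 1 η b 0 (pos S)|) := fun S => by
  refine measurableSet_lt measurable_const ?_
  refine continuous_abs.measurable.comp (Finset.measurable_sum _ fun b _ => ?_)
  unfold Db fb
  exact ((measurable_fk _ _ _ _ _).add (measurable_fk _ _ _ _ _)).sub ((measurable_fk _ _ _ _ _).const_mul 2)

/-- The complement of the good event is contained in the union of the six bad events. -/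
theorem bad_sub {R t τ₀ B : ℕ} {I : Finset ℕ} {v₁ v₂ : ℕ → ℤ} {δ' δ'' ε wt A lam θ : ℝ} :
    {η | ¬ GoodS μ R t τ₀ B I v₁ v₂ δ' δ'' ε wt A lam θ η} ⊆
      {η | ∃ u N : ℕ, ∃ y : ℤ, u ≤ R ∧ N ≤ R ∧ 0 ≤ y ∧ y ≤ N ∧ Sys μ R δ' u N y ∧ θ <
        Qg μ N y (fun _ S => ∃ b < B, 2 * wt < |2 * ((pos S (zb t (τ₀ - u) b) : ℝ) - pos S (za t (τ₀ - u) b)) - t|)
          (sh ((u : ℤ), 0) η)} ∪
      {η | ∃ u N : ℕ, ∃ y : ℤ, u ≤ R ∧ N ≤ R ∧ 0 ≤ y ∧ y ≤ N ∧ Sys μ R δ' u N y ∧ θ <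
        Qg μ N y (fun η S => lam < |∑ b ∈ range B, Db μ t (τ₀ - u) I 1 η b 0 (pos S)|) (sh ((u : ℤ), 0) η)} ∪
      {η | ¬ RA μ R t τ₀ B I wt A 1 η} ∪ {η | ¬ PBox μ R δ'' ε η} ∪
      shr 0 v₁ ⁻¹' {η | ¬ PBox μ R δ'' ε η} ∪ shr 0 v₂ ⁻¹' {η | ¬ PBox μ R δ'' ε η} := by
  intro η hη
  by_contra hcon
  simp only [Set.mem_union, Set.mem_preimage, Set.mem_ofPred_eq, not_or, not_not] at hcon
  obtain ⟨⟨⟨⟨⟨h1, h2⟩, h3⟩, h4⟩, h5⟩, h6⟩ := hcon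
  refine hη ⟨?_, h3, ?_, h4, h5, h6⟩
  · intro u N y hS
    by_contra hlt
    exact h1 ⟨u, N, y, by have := hS.1; omega, by have := hS.2.2.1; omega, hS.2.2.2.1, hS.2.2.2.2.1, hS, not_le.1 hlt⟩
  · intro u N y hS
    by_contra hlt
    exact h2 ⟨u, N, y, by have := hS.1; omega, by have := hS.2.2.1; omega, hS.2.2.2.1, hS.2.2.2.2.1, hS, not_le.1 hlt⟩

theorem sys_fact {R t τ₀ B u N : ℕ} {y : ℤ} {δ : ℝ} (hS : Sys μ R δ u N y) (h1 : R / 4 ≤ τ₀) (h2 : τ₀ + 2 * t * B ≤ 3 * R / 4) :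
    R ≤ 2 * N + 1 ∧ N ≤ R ∧ u ≤ τ₀ ∧ (τ₀ - u) + 2 * t * B ≤ N := by
  obtain ⟨s1, s2, s3, _⟩ := hS
  generalize 2 * t * B = X at *
  refine ⟨by omega, by omega, by omega, by omega⟩

theorem law_pre_shr [IsProbabilityMeasure μ] (v : ℕ → ℤ) (E : Set Env) : law μ (shr 0 v ⁻¹' E) = law μ E := by
  have h1 := (emb_shr 0 v).map_apply (law μ) E
  rw [(shr_mp (μ := μ) 0 v).map_eq] at h1
  exact h1.symm

end

end Pool.Agent.W_7d29a1_Z10
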