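import Pool.Agent.W_7d29a1_Z10.ExcC

/-!
STORM Z, leaf Stp, part (C): the probability of the good event. (helper10)
-/

namespace Pool.Agent.W_7d29a1_Z10

open MeasureTheory ProbabilityTheory Filter Topology Finset
open Pool.Agent.W_7d29a1_F Pool.Agent.W_7d29a1_X Pool.Agent.W_7d29a1_G
open Pool.Agent.W_7d29a1_SR (In wd)
open Pool.Agent.W_7d29a1_Z
open scoped ENNReal

noncomputable section

variable {μ : Measure ℝ} [IsProbabilityMeasure μ] {c C : ℝ} {n₀ : ℕ}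

/-- The cones at the scale `t`. -/
theorem cones_t {R t b δ ε' w z : ℝ} (hR : 1 ≤ R) (ht : R ^ b ≤ t) (hδ : 0 ≤ δ) (hε : ε' ≤ b * δ / 2) (h2 : 2 ≤ R ^ (b * δ / 2))
    (hw : 0 ≤ w) (hz : z ≤ w) : R ^ ε' * w + z ≤ t ^ δ * w ∧ R ^ (b * δ / 2) * w ≤ t ^ δ * w := by
  have hR0 : 0 < R := by linarith
  have htδ : R ^ (b * δ) ≤ t ^ δ := by
    rw [Real.rpow_mul hR0.le]
    exact Real.rpow_le_rpow (Real.rpow_nonneg hR0.le _) ht hδ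
  have hb2 : R ^ (b * δ) = R ^ (b * δ / 2) * R ^ (b * δ / 2) := by
    rw [← Real.rpow_add hR0]; congr 1; ring
  have hq : R ^ ε' ≤ R ^ (b * δ / 2) := Real.rpow_le_rpow_of_exponent_le hR hε
  have h3 : R ^ (b * δ / 2) + 1 ≤ t ^ δ := by
    refine le_trans ?_ htδ
    rw [hb2]
    nlinarith
  constructor
  · calc R ^ ε' * w + z ≤ R ^ (b * δ / 2) * w + w := by
          have := mul_le_mul_of_nonneg_right hq hw
          linarith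
      _ = (R ^ (b * δ / 2) + 1) * w := by ring
      _ ≤ t ^ δ * w := mul_le_mul_of_nonneg_right h3 hw
  · exact mul_le_mul_of_nonneg_right (by linarith) hw

theorem pow_exp_t {R t b g : ℝ} (hR : 1 ≤ R) (ht : R ^ b ≤ t) (hg : 0 ≤ g) : Real.exp (-t ^ g) ≤ Real.exp (-R ^ (b * g)) := by
  refine Real.exp_le_exp.2 (neg_le_neg ?_)
  have hR0 : 0 < R := by linarith
  rw [Real.rpow_mul hR0.le]
  exact Real.rpow_le_rpow (Real.rpow_nonneg hR0.le _) ht hg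

theorem ra_num {R t B z : ℕ} {x y : ℝ} (h1 : 2 * t * B ≤ R) (ht : 1 ≤ t) (hR : 1 ≤ R) (hz : z ≤ R) (hx : 0 ≤ x) (hxy : x ≤ y) :
    (B : ℝ) * (2 * (2 * R + (1 : ℕ) * z) + 1) * (2 * (1 : ℕ) + 1) * x ≤ 45 * (R : ℝ) ^ (2 : ℝ) * y := by
  have hBR : B ≤ R := by
    have h2 : B ≤ 2 * t * B := by nlinarith
    exact h2.trans h1
  have hBr : (B : ℝ) ≤ R := by exact_mod_cast hBR
  have hzr : (z : ℝ) ≤ R := by exact_mod_cast hz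
  have hRr : (1 : ℝ) ≤ R := by exact_mod_cast hR
  have hR0 : (0 : ℝ) ≤ R := by linarith
  have hz0 : (0 : ℝ) ≤ z := Nat.cast_nonneg z
  have h2 : (B : ℝ) * (2 * (2 * R + (1 : ℕ) * z) + 1) * (2 * (1 : ℕ) + 1) ≤ 45 * (R : ℝ) ^ (2 : ℝ) := by
    rw [show (2 : ℝ) = ((2 : ℕ) : ℝ) by norm_num, Real.rpow_natCast]
    push_cast
    have h3 : (B : ℝ) * (2 * (2 * R + 1 * z) + 1) ≤ R * (7 * R) :=
      mul_le_mul hBr (by linarith) (by linarith) hR0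
    calc (B : ℝ) * (2 * (2 * R + 1 * z) + 1) * (2 * 1 + 1) ≤ R * (7 * R) * (2 * 1 + 1) :=
          mul_le_mul_of_nonneg_right h3 (by norm_num)
      _ ≤ 45 * (R : ℝ) ^ 2 := by nlinarith
  exact mul_le_mul h2 hxy hx (by positivity)

/-- The exponents and the large scales. -/
theorem exc_ev {a b δ ε' δ' c₁ c₂ c₃ δ₁ δ₂ δ₃ g K W : ℝ} (hb : 0 < b) (hδ : 0 < δ) (hg : 0 < g) (hc₁ : 0 < c₁) (hc₂ : 0 < c₂)
    (hc₃ : 0 < c₃) (hd1 : δ' < δ₁) (hd2 : δ' < δ₂) (hd3 : δ' < δ₃) (hd4 : δ' < a) (hε' : ε' < a * b) (N₁ L₁ L₂ L₃ : ℕ) :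
    ∀ᶠ R : ℕ in atTop, (3 ≤ R ∧ N₁ ≤ R ∧ L₁ ≤ R ∧ L₂ ≤ R ∧ L₃ ≤ R ∧ (N₁ : ℝ) ≤ (R : ℝ) ^ b) ∧
      (3 * K ≤ (R : ℝ) ^ (δ₁ - δ') ∧ 3 * K ≤ (R : ℝ) ^ (δ₂ - δ') ∧ 3 * K ≤ (R : ℝ) ^ (δ₃ - δ') ∧
        16 * (K * W) ≤ (R : ℝ) ^ (a - δ') ∧ 16 * (K * W) ≤ (R : ℝ) ^ (a * b - ε') ∧ 2 ≤ (R : ℝ) ^ (b * δ / 2) ∧
        2 ≤ (R : ℝ) ^ (c₁ / 4) ∧ 2 ≤ (R : ℝ) ^ (c₂ / 4)) ∧
      (8 * (R : ℝ) ^ (3 : ℝ) * Real.exp (-(R : ℝ) ^ c₁) ≤ Real.exp (-(R : ℝ) ^ (c₁ / 2)) / 6 ∧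
        8 * (R : ℝ) ^ (3 : ℝ) * Real.exp (-(R : ℝ) ^ c₂) ≤ Real.exp (-(R : ℝ) ^ (c₂ / 2)) / 6 ∧
        1 * (R : ℝ) ^ (0 : ℝ) * Real.exp (-(R : ℝ) ^ c₃) ≤ Real.exp (-(R : ℝ) ^ (c₃ / 2)) / 6 ∧
        45 * (R : ℝ) ^ (2 : ℝ) * Real.exp (-(R : ℝ) ^ (b * g)) ≤ Real.exp (-(R : ℝ) ^ (b * g / 2)) / 6) := by
  refine Eventually.and ?_ (Eventually.and ?_ ?_)
  · exact (eventually_ge_atTop 3).and ((eventually_ge_atTop N₁).and ((eventually_ge_atTop L₁).and ((eventually_ge_atTop L₂).and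
      ((eventually_ge_atTop L₃).and ((tend_pow hb).eventually_ge_atTop _)))))
  · exact ((tend_pow (by linarith)).eventually_ge_atTop _).and (((tend_pow (by linarith)).eventually_ge_atTop _).and
      (((tend_pow (by linarith)).eventually_ge_atTop _).and (((tend_pow (by linarith)).eventually_ge_atTop _).and
      (((tend_pow (by linarith)).eventually_ge_atTop _).and (((tend_pow (by positivity)).eventually_ge_atTop _).and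
      (((tend_pow (by positivity)).eventually_ge_atTop _).and ((tend_pow (by positivity)).eventually_ge_atTop _)))))))
  · exact (absorb hc₁ 8 3).and ((absorb hc₂ 8 3).and ((absorb hc₃ 1 0).and (absorb (mul_pos hb hg) 45 2)))

theorem exp_six {R x y : ℝ} (hR : 1 ≤ R) (h : x ≤ y) : Real.exp (-R ^ y) / 6 ≤ Real.exp (-R ^ x) / 6 := by
  have h1 := Real.rpow_le_rpow_of_exponent_le hR h
  have h2 := Real.exp_le_exp.2 (neg_le_neg h1)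
  linarith

/-- **The good event has overwhelming probability.** -/
theorem exc_prob (h : In μ c C n₀) (hF : HF2 μ) {q : ℕ → ℝ} (hq0 : ∀ n, 1 ≤ n → 0 ≤ q n) (hns : NsS μ) (hinn : InnS μ q) {b ε ε₁ δ g : ℝ} (hb : 0 < b) (hε : 0 < ε)
    (hε₁ : 0 < ε₁) (hδ : 0 < δ) (hg : 0 < g) :
    ∃ δ' δ'' ε' c' : ℝ, 0 < δ' ∧ 0 < δ'' ∧ 0 < ε' ∧ 0 < c' ∧ ∀ᶠ R : ℕ in atTop,
      (∀ N : ℕ, R ≤ 2 * N + 1 → N ≤ R → (R : ℝ) ^ δ' * wd μ R ≤ (R : ℝ) ^ δ'' * wd' μ N) ∧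
      16 * ((R : ℝ) ^ δ' * wd μ R) ≤ R ∧
      ∀ (t τ₀ B : ℕ) (I : Finset ℕ) (A : ℝ), (R : ℝ) ^ b ≤ t → t ≤ R → R / 4 ≤ τ₀ → τ₀ + 2 * t * B ≤ 3 * R / 4 →
      I ⊆ Core t → 1 ≤ A → (R : ℝ) ^ ε * I.card ≤ A * (q t * wd' μ t) → (R : ℝ) ^ ε * I.card ≤ wd' μ t →
      Rsp μ t I 1 ((t : ℝ) ^ δ * wd μ t) A (Real.exp (-(t : ℝ) ^ g)) →
        16 * ((R : ℝ) ^ ε' * wd μ t) ≤ t ∧ 16 * (I.card : ℝ) ≤ t ∧ ∀ v₁ v₂ : ℕ → ℤ,
        law μ {η | ¬ GoodS μ R t τ₀ B I v₁ v₂ δ' δ'' ε₁ ((R : ℝ) ^ ε' * wd μ t) A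
          ((R : ℝ) ^ ε * (Real.sqrt B + B * (A * q t)) * A) (Real.exp (-(R : ℝ) ^ c')) η} ≤
          ENNReal.ofReal (Real.exp (-(R : ℝ) ^ c')) := by
  obtain ⟨a, K, ha0, ha1, hK, hwp⟩ := wd'_pow h hF
  obtain ⟨N₁, hN₁⟩ := wd'_eq h
  have hab : 0 < a * b := mul_pos ha0 hb
  have hbδ : 0 < b * δ := mul_pos hb hδ
  obtain ⟨ε', hε', hε'1, hε'2⟩ : ∃ ε' : ℝ, 0 < ε' ∧ ε' ≤ b * δ / 2 ∧ ε' ≤ a * b / 2 :=
    ⟨min (b * δ / 2) (a * b / 2), lt_min (by linarith) (by linarith), min_le_left _ _, min_le_right _ _⟩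
  obtain ⟨δ₁, c₁, hδ₁, hc₁, L₁, hN⟩ := hns ε' hε'
  obtain ⟨δ₂, c₂, hδ₂, hc₂, L₂, hI⟩ := hinn ε b (b * g) (b * δ / 2) hε hb (mul_pos hb hg) (by linarith)
  obtain ⟨δ₃, c₃, hδ₃, hc₃, L₃, hP⟩ := pbox h hF ε₁ hε₁
  obtain ⟨δ', hδ', hd1, hd2, hd3, hd4⟩ : ∃ δ' : ℝ, 0 < δ' ∧ δ' < δ₁ ∧ δ' < δ₂ ∧ δ' < δ₃ ∧ δ' < a := by
    have h1 : 0 < min (min δ₁ δ₂) (min δ₃ a) := lt_min (lt_min hδ₁ hδ₂) (lt_min hδ₃ ha0)
    have h2 : min (min δ₁ δ₂) (min δ₃ a) ≤ δ₁ := (min_le_left _ _).trans (min_le_left _ _)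
    have h3 : min (min δ₁ δ₂) (min δ₃ a) ≤ δ₂ := (min_le_left _ _).trans (min_le_right _ _)
    have h4 : min (min δ₁ δ₂) (min δ₃ a) ≤ δ₃ := (min_le_right _ _).trans (min_le_left _ _)
    have h5 : min (min δ₁ δ₂) (min δ₃ a) ≤ a := (min_le_right _ _).trans (min_le_right _ _)
    exact ⟨min (min δ₁ δ₂) (min δ₃ a) / 2, by linarith, by linarith, by linarith, by linarith, by linarith⟩
  obtain ⟨c', hc', hc'1, hc'2, hc'3, hc'4⟩ : ∃ c' : ℝ, 0 < c' ∧ c' ≤ c₁ / 4 ∧ c' ≤ c₂ / 4 ∧ c' ≤ c₃ / 2 ∧ c' ≤ b * g / 2 := by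
    have hbg : 0 < b * g := mul_pos hb hg
    have h1 : 0 < min (min (c₁ / 4) (c₂ / 4)) (min (c₃ / 2) (b * g / 2)) :=
      lt_min (lt_min (by linarith) (by linarith)) (lt_min (by linarith) (by linarith))
    exact ⟨_, h1, (min_le_left _ _).trans (min_le_left _ _), (min_le_left _ _).trans (min_le_right _ _),
      (min_le_right _ _).trans (min_le_left _ _), (min_le_right _ _).trans (min_le_right _ _)⟩
  refine ⟨δ', δ₃, ε', c', hδ', hδ₃, hε', hc', ?_⟩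
  filter_upwards [exc_ev (a := a) (ε' := ε') (K := K) (W := wd' μ 1) hb hδ hg hc₁ hc₂ hc₃ hd1 hd2 hd3 hd4 (by linarith) N₁ L₁ L₂ L₃]
    with R hR
  obtain ⟨⟨hR4, hR5, hR1, hR2, hR3, hR6⟩, ⟨e1, e2, e3, e6, e4, e5, e7, e8⟩, a1, a2, a3, a4⟩ := hR
  have hRr : (1 : ℝ) ≤ R := by exact_mod_cast (by omega : 1 ≤ R)
  have hR0 : (0 : ℝ) < R := lt_of_lt_of_le one_pos hRr
  have hw1 := (hN₁ R hR5).1
  have hnn : ∀ N, 0 ≤ wd' μ N := fun N => zero_le_one.trans (le_max_left _ _)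
  -- the cones
  have hcone' : ∀ d : ℝ, 3 * K ≤ (R : ℝ) ^ (d - δ') → ∀ N : ℕ, R ≤ 2 * N + 1 → N ≤ R →
      (R : ℝ) ^ δ' * wd μ R ≤ (R : ℝ) ^ d * wd' μ N := by
    intro d hd' N h1 h2
    have hN1 : 1 ≤ N := by omega
    have h3 : wd μ R ≤ 3 * K * wd' μ N := by
      rw [← hw1]
      refine ((hwp N R hN1 h2).2.2).trans ?_
      have h4 := mul_le_mul_of_nonneg_left (ratio_three ha0 h1 h2 hN1) (by linarith : (0 : ℝ) ≤ K)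
      have h5 := mul_le_mul_of_nonneg_right h4 (hnn N)
      linarith
    calc (R : ℝ) ^ δ' * wd μ R ≤ (R : ℝ) ^ δ' * ((R : ℝ) ^ (d - δ') * wd' μ N) :=
          mul_le_mul_of_nonneg_left (h3.trans (mul_le_mul_of_nonneg_right hd' (hnn N))) (Real.rpow_nonneg hR0.le _)
      _ = (R : ℝ) ^ d * wd' μ N := by
          rw [← mul_assoc, ← Real.rpow_add hR0]; congr 2; ring
  have hup : ∀ t : ℕ, 1 ≤ t → wd' μ t = wd μ t → wd μ t ≤ K * (t : ℝ) ^ (1 - a) * wd' μ 1 := by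
    intro t ht hv
    have h1 := (hwp 1 t le_rfl ht).2.2
    rwa [Nat.cast_one, div_one, hv] at h1
  have hRsz : 16 * ((R : ℝ) ^ δ' * wd μ R) ≤ R := by
    refine size_pow hR0 hR0 (hup R (by omega) hw1) ?_
    calc 16 * (K * wd' μ 1) * (R : ℝ) ^ δ' ≤ (R : ℝ) ^ (a - δ') * (R : ℝ) ^ δ' :=
          mul_le_mul_of_nonneg_right e6 (Real.rpow_nonneg hR0.le _)
      _ = (R : ℝ) ^ a := by rw [← Real.rpow_add hR0]; congr 1; ring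
  refine ⟨hcone' δ₃ e3, hRsz, ?_⟩
  intro t τ₀ B I A ht1 ht2 hτ hB hIC hA hz1 hz2 hRsp
  have htN : N₁ ≤ t := by exact_mod_cast hR6.trans ht1
  have hv1 := (hN₁ t htN).1
  have htr : (1 : ℝ) ≤ t := (Real.one_le_rpow hRr hb.le).trans ht1
  have ht0 : (0 : ℝ) < t := lt_of_lt_of_le one_pos htr
  have ht1' : 1 ≤ t := by exact_mod_cast htr
  have hwt0 : 0 ≤ wd μ t := by rw [← hv1]; exact hnn t
  have hRε : 1 ≤ (R : ℝ) ^ ε := Real.one_le_rpow hRr hε.le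
  have hcz : (I.card : ℝ) ≤ (R : ℝ) ^ ε * I.card := le_mul_of_one_le_left (Nat.cast_nonneg _) hRε
  have hcard : (I.card : ℝ) ≤ wd μ t := by rw [← hv1]; exact hcz.trans hz2
  have hsize : 16 * ((R : ℝ) ^ ε' * wd μ t) ≤ t := by
    refine size_pow hR0 ht0 (hup t ht1' hv1) ?_
    have h2 : (R : ℝ) ^ (a * b) ≤ (t : ℝ) ^ a := by
      rw [mul_comm, Real.rpow_mul hR0.le]
      exact Real.rpow_le_rpow (Real.rpow_nonneg hR0.le _) ht1 ha0.le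
    refine le_trans ?_ h2
    calc 16 * (K * wd' μ 1) * (R : ℝ) ^ ε' ≤ (R : ℝ) ^ (a * b - ε') * (R : ℝ) ^ ε' :=
          mul_le_mul_of_nonneg_right e4 (Real.rpow_nonneg hR0.le _)
      _ = (R : ℝ) ^ (a * b) := by rw [← Real.rpow_add hR0]; congr 1; ring
  have hRε' : 1 ≤ (R : ℝ) ^ ε' := Real.one_le_rpow hRr hε'.le
  have hsize2 : 16 * (I.card : ℝ) ≤ t := by
    have h1 : wd μ t ≤ (R : ℝ) ^ ε' * wd μ t := le_mul_of_one_le_left hwt0 hRε'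
    linarith
  refine ⟨hsize, hsize2, fun v₁ v₂ => ?_⟩
  obtain ⟨k1, k2⟩ := cones_t hRr ht1 hδ.le hε'1 e5 hwt0 hcard
  have k3 := pow_exp_t hRr ht1 hg.le
  have hRsp' : Rsp μ t I 1 ((R : ℝ) ^ (b * δ / 2) * wd' μ t) A (Real.exp (-(R : ℝ) ^ (b * g))) :=
    rsp_weaken hRsp (by rw [hv1]; exact k2) k3
  have htB : 2 * t * B ≤ R := by
    generalize 2 * t * B = X at *
    omega
  refine prob_good (Real.exp_pos _).le ?_ ?_ ?_ ?_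
  · refine (prob_ns (q := Real.exp (-(R : ℝ) ^ c₁)) (Real.exp_pos _) (Real.exp_pos _).le ht1' hτ hB hv1 ?_).trans
      (ENNReal.ofReal_le_ofReal (num_sys hRr a1 e7 hc'1))
    intro N y q1 q2 hy0 hyN hy
    exact hN R hR1 N (by omega) q2 y hy0 hyN (hy.trans (mul_le_mul_of_nonneg_left (hcone' δ₁ e1 N q1 q2) zero_le_two))
  · refine (prob_inn (q := Real.exp (-(R : ℝ) ^ c₂)) (Real.exp_pos _) (Real.exp_pos _).le hτ hB ?_).trans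
      (ENNReal.ofReal_le_ofReal (num_sys hRr a2 e8 hc'2))
    intro N τ y q1 q2 q4 hy0 hyN hy
    have hRδ₂ : (1 : ℝ) ≤ (R : ℝ) ^ δ₂ := Real.one_le_rpow hRr hδ₂.le
    have h1 := hI R hR2 N t τ B (by omega) q2 ht1 q4 y hy0 hyN
      (hy.trans (mul_le_mul_of_nonneg_left (hcone' δ₂ e2 N q1 q2) zero_le_two)) I hIC A hA
      ((hcz.trans (hz1.trans (le_of_eq (mul_assoc _ _ _).symm))).trans
        (le_mul_of_one_le_left (mul_nonneg (mul_nonneg (by linarith) (hq0 t ht1')) (hnn t)) hRδ₂))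
      ((hcz.trans hz2).trans (le_mul_of_one_le_left (hnn t) hRδ₂)) hRsp' 0 B (by omega)
    rw [zero_add, Nat.Ico_zero_eq_range] at h1
    exact h1
  · refine (ra_prob (L := R) (τ := τ₀) (B := B) (K := 1) (by push_cast; rw [one_mul]; exact k1) hRsp).trans
      (ENNReal.ofReal_le_ofReal ?_)
    have hIR : I.card ≤ R := by
      have h1 : (I.card : ℝ) ≤ R := by
        have : (t : ℝ) ≤ R := by exact_mod_cast ht2
        have h2 : (0 : ℝ) ≤ I.card := Nat.cast_nonneg _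
        linarith
      exact_mod_cast h1
    exact (ra_num htB ht1' (by omega) hIR (Real.exp_pos _).le k3).trans (a4.trans (exp_six hRr hc'4))
  · refine (hP R hR3).trans (ENNReal.ofReal_le_ofReal ?_)
    refine le_trans ?_ (a3.trans (exp_six hRr hc'3))
    rw [Real.rpow_zero, one_mul, one_mul]

end

end Pool.Agent.W_7d29a1_Z10
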