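import Pool.Agent.W_7d29a1_SR.Main4

/-!
STORM Z, the end: from `n ^ (1 / 2 + a) ≤ wd μ n` for infinitely many `n` to the wandering exponent of the problem. (helper10)
-/

namespace Pool.Agent.W_7d29a1_Z10

open MeasureTheory ProbabilityTheory Filter Topology
open Pool.Agent.W_7d29a1_F Pool.Agent.W_7d29a1_h4g Pool.Agent.W_7d29a1_G Pool.Agent.W_7d29a1_L Pool.Agent.W_7d29a1_SR
open Pool.Agent.W_7d29a1_h47 (LamN EM_of Nondeg_of map_toEnv tendsto_logZ log_endMGF endMGF endP polE)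
open Pool.Agent.W_7d29a1_h46 (Expd)

section core

variable {Ω : Type*} [MeasurableSpace Ω] {P : Measure Ω} [IsProbabilityMeasure P] {ω : ℕ × ℤ → Ω → ℝ} {β : ℝ}
  {μ : Measure ℝ} [IsProbabilityMeasure μ] {c C : ℝ} {n₀ : ℕ}

/-- The polymer is superdiffusive along the scales with `n ^ (1 / 2 + a) ≤ wd μ n`. -/
theorem freq_core (h : In μ c C n₀) (hmeas : ∀ p, Measurable (ω p))
    (hmp : MeasurePreserving (fun x => toF β fun p => ω p x) P (law μ)) {c₂ K₂ C₃ a₃ : ℝ}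
    (hc₂ : 0 < c₂) (hK₂ : 0 < K₂) (hJ : ∀ v, |v| < 1 → c₂ * |v| ^ K₂ ≤ J μ (v / 2))
    (hC₃ : 0 < C₃) (ha₃ : 0 < a₃) (hJ3 : ∀ v, |v| ≤ 1 / 2 → J μ (v / 2) ≤ C₃ * |v| ^ (1 + a₃))
    {a : ℝ} (ha : 0 < a) (hZ : ∃ᶠ n : ℕ in atTop, (n : ℝ) ^ (1 / 2 + a) ≤ wd μ n) :
    1 / 2 + a ≤ nuP P β ω ∧ ∀ ε : ℝ, 0 < ε → ∃ᶠ n : ℕ in atTop,
      (n : ℝ) ^ (1 + a) ≤ ∫ x, polE β (fun p => ω p x) n (fun s => mx s ^ 2) ∂P ∧
      ∫ x, polP β (fun p => ω p x) n (ball n ((n : ℝ) ^ (1 / 2 + a / 2))) ∂P ≤ ε := by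
  obtain ⟨a₁, A₁, b, B, -, -, hb, hB, n₂, hn₂, hsc⟩ := scales (P := P) (β := β) (ω := ω) h hmp
  obtain ⟨σ, w, c', C', M, hσ, hw, hc, hc1, hC, hca, hCa, hS, hdev, hluck, hexit, hspr, hmax, hnu, hchi, e1, e2, e3, e4, e5, e6, hκ⟩ :=
    core_P (P := P) (β := β) (ω := ω) h hmeas hmp hc₂ hK₂ hJ hC₃ ha₃ hJ3 (c₉ := 1) one_pos 1
  have hwd : ∀ n, n₂ ≤ n → b * wd μ n ≤ w n := by
    intro n hn
    have h1 := (hsc n hn).2.2.1
    have h2 : w n = wth P β ω (fun v => J μ (v / 2)) n := by rw [hw n, hσ n]; rfl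
    rw [h2]
    exact h1
  refine ⟨?_, fun ε hε => ?_⟩
  · rw [hnu]
    refine le_of_forall_pos_le_add fun δ hδ => ?_
    have hbd : IsBoundedUnder (· ≤ ·) atTop (fun n : ℕ => Real.log (w n) / Real.log n) := by
      refine ⟨1 - c', ?_⟩
      rw [eventually_map]
      filter_upwards [hS, eventually_ge_atTop 2] with n h1 h2
      have hn2 : (2 : ℝ) ≤ n := by exact_mod_cast h2
      have hn0 : (0 : ℝ) < n := by linarith
      have hl : 0 < Real.log n := Real.log_pos (by linarith)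
      have hw0 : 0 < w n := (Real.rpow_pos_of_pos hn0 _).trans_le h1.2.2.1
      rw [div_le_iff₀ hl]
      have h3 := Real.log_le_log hw0 h1.2.2.2.1
      rwa [Real.log_rpow hn0] at h3
    have hlim : Tendsto (fun n : ℕ => (n : ℝ) ^ δ) atTop atTop :=
      (tendsto_rpow_atTop hδ).comp tendsto_natCast_atTop_atTop
    have hfr : ∃ᶠ n : ℕ in atTop, 1 / 2 + a - δ ≤ Real.log (w n) / Real.log n := by
      refine (hZ.and_eventually ((eventually_ge_atTop n₂).and ((eventually_ge_atTop 2).and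
        (hlim.eventually_ge_atTop (1 / b))))).mono fun n hn => ?_
      obtain ⟨h1, h2, h3, h4⟩ := hn
      have hn2 : (2 : ℝ) ≤ n := by exact_mod_cast h3
      have hn0 : (0 : ℝ) < n := by linarith
      have hl : 0 < Real.log n := Real.log_pos (by linarith)
      have h5 : (n : ℝ) ^ (1 / 2 + a - δ) ≤ w n := by
        refine le_trans ?_ (hwd n h2)
        rw [div_le_iff₀ hb] at h4
        have h6 : (n : ℝ) ^ (1 / 2 + a) = (n : ℝ) ^ (1 / 2 + a - δ) * (n : ℝ) ^ δ := by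
          rw [← Real.rpow_add hn0]; congr 1; ring
        have h7 : 0 < (n : ℝ) ^ (1 / 2 + a - δ) := Real.rpow_pos_of_pos hn0 _
        calc (n : ℝ) ^ (1 / 2 + a - δ) = (n : ℝ) ^ (1 / 2 + a - δ) * 1 := (mul_one _).symm
          _ ≤ (n : ℝ) ^ (1 / 2 + a - δ) * ((n : ℝ) ^ δ * b) := mul_le_mul_of_nonneg_left h4 h7.le
          _ = b * (n : ℝ) ^ (1 / 2 + a) := by rw [h6]; ring
          _ ≤ b * wd μ n := mul_le_mul_of_nonneg_left h1 hb.le
      rw [le_div_iff₀ hl]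
      have h8 := Real.log_le_log (Real.rpow_pos_of_pos hn0 _) h5
      rwa [Real.log_rpow hn0] at h8
    have := le_limsup_of_frequently_le hfr hbd
    linarith
  · obtain ⟨α, A, hα, hmx⟩ := hmax 2
    obtain ⟨d, hd, htight⟩ := hspr ε hε
    have ha2 : 0 < a / 2 := by positivity
    have hlim : Tendsto (fun n : ℕ => (n : ℝ) ^ (a / 2)) atTop atTop :=
      (tendsto_rpow_atTop ha2).comp tendsto_natCast_atTop_atTop
    refine (hZ.and_eventually ((eventually_ge_atTop n₂).and ((eventually_ge_atTop 1).and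
      ((hlim.eventually_ge_atTop (1 / (d * b))).and ((hlim.eventually_ge_atTop (1 / (α * b ^ 2))).and
        (hmx.and (htight.and (hlim.eventually_ge_atTop 1)))))))).mono fun n hn => ?_
    obtain ⟨h1, h2, h3, h4, h4', h5, h6, h6'⟩ := hn
    have hn1 : (1 : ℝ) ≤ n := by exact_mod_cast h3
    have hn0 : (0 : ℝ) < n := by linarith
    have hwn := hwd n h2
    have h7 : 0 < (n : ℝ) ^ (1 / 2 + a / 2) := Real.rpow_pos_of_pos hn0 _
    have h8 : (n : ℝ) ^ (1 / 2 + a) = (n : ℝ) ^ (1 / 2 + a / 2) * (n : ℝ) ^ (a / 2) := by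
      rw [← Real.rpow_add hn0]; congr 1; ring
    have hbw : b * (n : ℝ) ^ (1 / 2 + a) ≤ w n := (mul_le_mul_of_nonneg_left h1 hb.le).trans hwn
    constructor
    · refine le_trans ?_ h5.1
      rw [div_le_iff₀ (by positivity)] at h4'
      have h9 : (b * (n : ℝ) ^ (1 / 2 + a)) ^ 2 ≤ w n ^ 2 :=
        pow_le_pow_left₀ (by positivity) hbw 2
      have h10 : (n : ℝ) ^ (1 + a) * ((n : ℝ) ^ (a / 2) * (n : ℝ) ^ (a / 2)) = ((n : ℝ) ^ (1 / 2 + a)) ^ 2 := by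
        rw [pow_two, ← Real.rpow_add hn0, ← Real.rpow_add hn0, ← Real.rpow_add hn0]; congr 1; ring
      have h11 : 0 < (n : ℝ) ^ (1 + a) := Real.rpow_pos_of_pos hn0 _
      have h12 : 0 < (n : ℝ) ^ (a / 2) := Real.rpow_pos_of_pos hn0 _
      have h13 : (1 : ℝ) ≤ (n : ℝ) ^ (a / 2) * ((n : ℝ) ^ (a / 2) * (α * b ^ 2)) := by
        calc (1 : ℝ) = 1 * 1 := (one_mul _).symm
          _ ≤ (n : ℝ) ^ (a / 2) * ((n : ℝ) ^ (a / 2) * (α * b ^ 2)) := mul_le_mul h6' h4' zero_le_one h12.le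
      calc (n : ℝ) ^ (1 + a) = (n : ℝ) ^ (1 + a) * 1 := (mul_one _).symm
        _ ≤ (n : ℝ) ^ (1 + a) * ((n : ℝ) ^ (a / 2) * ((n : ℝ) ^ (a / 2) * (α * b ^ 2))) :=
            mul_le_mul_of_nonneg_left h13 h11.le
        _ = α * (b * (n : ℝ) ^ (1 / 2 + a)) ^ 2 := by rw [mul_pow, ← h10]; ring
        _ ≤ α * w n ^ 2 := mul_le_mul_of_nonneg_left h9 hα.le
    · refine le_trans (integral_mono (polP_int hmeas n _) (polP_int hmeas n _) fun x =>
        polP_mono _ _ _ (ball_mono n ?_)) h6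
      rw [div_le_iff₀ (by positivity)] at h4
      calc (n : ℝ) ^ (1 / 2 + a / 2) = (n : ℝ) ^ (1 / 2 + a / 2) * 1 := (mul_one _).symm
        _ ≤ (n : ℝ) ^ (1 / 2 + a / 2) * ((n : ℝ) ^ (a / 2) * (d * b)) := mul_le_mul_of_nonneg_left h4 h7.le
        _ = d * (b * (n : ℝ) ^ (1 / 2 + a)) := by rw [h8]; ring
        _ ≤ d * w n := mul_le_mul_of_nonneg_left hbw hd.le

end core

/-- **The headline of STORM Z, lattice version**, from the input structure and the width. -/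
theorem main_F
    (hIn : ∀ (μ : Measure ℝ) [IsProbabilityMeasure μ], Pool.Agent.W_7d29a1_h47.EM μ → Pool.Agent.W_7d29a1_h47.Nondeg μ →
      ∃ (c C : ℝ) (n₀ : ℕ), In μ c C n₀)
    (hPow : ∀ (μ : Measure ℝ) [IsProbabilityMeasure μ], Pool.Agent.W_7d29a1_h47.EM μ → Pool.Agent.W_7d29a1_h47.Nondeg μ →
      ∃ α : ℝ, 0 < α ∧ Expd (Pool.Agent.W_7d29a1_h47.Lam μ) α 0 0)
    (hZ : ∀ (μ : Measure ℝ) [IsProbabilityMeasure μ], Pool.Agent.W_7d29a1_h47.EM μ → Pool.Agent.W_7d29a1_h47.Nondeg μ →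
      ∃ a : ℝ, 0 < a ∧ ∃ᶠ n : ℕ in atTop, (n : ℝ) ^ (1 / 2 + a) ≤ wd μ n)
    {Ω : Type*} [MeasurableSpace Ω] (P : Measure Ω) [IsProbabilityMeasure P]
    (ω : ℕ × ℤ → Ω → ℝ) (hmeas : ∀ p, Measurable (ω p)) (hindep : iIndepFun ω P)
    (hident : ∀ p q, IdentDistrib (ω p) (ω q) P P) (hnc : ¬ ∃ c : ℝ, ∀ᵐ x ∂P, ω (0, 0) x = c)
    (hexp : ∀ b : ℝ, Integrable (fun x => Real.exp (b * ω (0, 0) x)) P) {β : ℝ} (hβ : 0 < β) :
    ∃ c : ℝ, 0 < c ∧ 1 / 2 + c ≤ nuP P β ω ∧ ∀ ε : ℝ, 0 < ε → ∃ᶠ n : ℕ in atTop,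
      (n : ℝ) ^ (1 + c) ≤ ∫ x, polE β (fun p => ω p x) n (fun s => mx s ^ 2) ∂P ∧
      ∫ x, polP β (fun p => ω p x) n (ball n ((n : ℝ) ^ (1 / 2 + c / 2))) ∂P ≤ ε := by
  obtain ⟨⟨lam, J, -, -, -, hlamp, -, h4, -, h6, h7, -, hJd, hJH⟩, -⟩ :=
    Pool.Agent.W_7d29a1_F.main_FV P ω hmeas hindep hident hnc hexp hβ
  obtain ⟨μ, hμdef⟩ : ∃ μ : Measure ℝ, μ = P.map fun x => β * ω (0, 0) x := ⟨_, rfl⟩
  have hm0 : Measurable fun x => β * ω (0, 0) x := (hmeas _).const_mul β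
  have hprob : IsProbabilityMeasure μ := by
    rw [hμdef]
    exact Measure.isProbabilityMeasure_map hm0.aemeasurable
  have hμ : Pool.Agent.W_7d29a1_h47.EM μ := by
    rw [hμdef]
    exact EM_of (hmeas _) hexp β
  have hnd : Pool.Agent.W_7d29a1_h47.Nondeg μ := by
    rw [hμdef]
    exact Nondeg_of (hmeas _) hnc hβ
  have hmpE := map_toEnv hmeas hindep hident β
  rw [← hμdef] at hmpE
  have hmp := mp_toF hmeas hindep hident β
  rw [← hμdef] at hmp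
  have hid : lam = LamN μ := by
    funext h
    have g1 := hmpE.quasiMeasurePreserving.ae (tendsto_logZ hμ h)
    have g2 := hmpE.quasiMeasurePreserving.ae (tendsto_logZ hμ 0)
    obtain ⟨x, hx1, hx2, hx3⟩ := (g1.and (g2.and (h4 h))).exists
    refine tendsto_nhds_unique hx3 ((hx1.sub hx2).congr fun n => ?_)
    rw [log_endMGF, sub_div]
  have hidL : ∀ h, lam h = Pool.Agent.W_7d29a1_h47.Lam μ h - Pool.Agent.W_7d29a1_h47.Lam μ 0 := by
    intro h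
    rw [hid]
    rfl
  have hJJ : ∀ v, |v| < 1 → J v = Pool.Agent.W_7d29a1_G.J μ (v / 2) := fun v hv => (J_of_lub hidL (h6 v hv)).symm
  obtain ⟨c₀, C₀, n₀, hI⟩ := hIn μ hμ hnd
  obtain ⟨a, ha, C₁, hC₁⟩ := hPow μ hμ hnd
  have hlam0 : lam 0 = 0 := by rw [hidL, sub_self]
  -- the lower bound of the rate function
  have hlam : ∀ h : ℝ, |h| ≤ 1 → lam h ≤ max C₁ 1 * |h| ^ (1 + a) := by
    intro h hh
    have h1 := hC₁ h hh
    rw [zero_add, zero_mul, add_zero] at h1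
    have h2 := hidL h
    have h3 : C₁ * |h| ^ (1 + a) ≤ max C₁ 1 * |h| ^ (1 + a) :=
      mul_le_mul_of_nonneg_right (le_max_left _ _) (by positivity)
    linarith
  obtain ⟨c₁, hc₁def⟩ : ∃ c₁ : ℝ, c₁ = (1 / (2 * max C₁ 1)) ^ (1 / a) / 2 := ⟨_, rfl⟩
  have hc₁ : 0 < c₁ := by
    rw [hc₁def]
    have : 0 < max C₁ 1 := lt_of_lt_of_le one_pos (le_max_right _ _)
    positivity
  have hJlow : ∀ v, |v| < 1 → c₁ * |v| ^ (1 + 1 / a) ≤ J v := by
    intro v hv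
    rw [hc₁def]
    exact legendre_pow ha (le_max_right _ _) hlam hv (h6 v hv)
  -- the upper bound of the rate function
  have hJ0 : ∀ v, |v| < 1 → 0 ≤ J v := by
    intro v hv
    have h1 : 0 * v - lam 0 ≤ J v := (h6 v hv).1 ⟨0, rfl⟩
    rw [hlam0] at h1
    linarith
  have hJz : J 0 = 0 := by
    refine le_antisymm ((h6 0 (by norm_num)).2 ?_) (hJ0 0 (by norm_num))
    rintro _ ⟨h, rfl⟩
    show h * 0 - lam h ≤ 0
    rcases eq_or_ne h 0 with rfl | hh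
    · rw [hlam0]
      norm_num
    · have := hlamp h hh
      linarith
  obtain ⟨CH, hCH⟩ := hJH (1 / 2) (by norm_num)
  have hJup := superlin hJz hJ0 hJd (e := 1 / 99) (by norm_num) hCH
  have hCHp : 0 < |CH| + 1 := by positivity
  obtain ⟨c, hc, hfr⟩ := hZ μ hμ hnd
  obtain ⟨r1, r2⟩ := freq_core (P := P) (β := β) (ω := ω) hI hmeas hmp (c₂ := c₁) (K₂ := 1 + 1 / a) (C₃ := |CH| + 1)
    (a₃ := 1 / 99) hc₁ (by positivity) (fun v hv => by rw [← hJJ v hv]; exact hJlow v hv) hCHp (by norm_num)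
    (fun v hv => by rw [← hJJ v (lt_of_le_of_lt hv (by norm_num))]; exact hJup v hv) hc hfr
  exact ⟨c, hc, r1, r2⟩

end Pool.Agent.W_7d29a1_Z10
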